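import Pool.Agent.Helper919_HM.Stmts

set_option autoImplicit false
set_option linter.unusedSectionVars false
set_option linter.unusedVariables false

/-! # The bookkeeping -/

namespace Pool.Agent.Helper919.HM.Tbook

open Cardinal Pool.Agent.Helper919.DQ

theorem mk_atom_le {J : Type} {lam : Cardinal.{0}} (hlam : ℵ_ 1 ≤ lam) (hJ : #J ≤ lam) :
    #(Atom J) ≤ lam := by
  have h0 : ℵ₀ ≤ lam := (aleph0_le_aleph 1).trans hlam
  have hW : #W ≤ lam := by rw [mk_W]; exact hlam
  have hprod : ∀ {A B : Type}, #A ≤ lam → #B ≤ lam → #(A × B) ≤ lam := by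
    intro A B hA hB
    rw [mk_prod, lift_id, lift_id]
    exact (mul_le_mul' hA hB).trans (mul_eq_self h0).le
  have hsum : ∀ {A B : Type}, #A ≤ lam → #B ≤ lam → #(A ⊕ B) ≤ lam := by
    intro A B hA hB
    rw [mk_sum, lift_id, lift_id]
    exact (add_le_add hA hB).trans (add_eq_self h0).le
  have hc : ∀ {A : Type} [Countable A], #A ≤ lam := fun {A} _ => (mk_le_aleph0).trans h0
  let f : Atom J → (W × (ℕ × W)) ⊕ (J × (W × W)) := fun a => match a with
    | .h v k x => Sum.inl (v, (k, x))
    | .c j α γ => Sum.inr (j, (α, γ))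
  have hf : Function.Injective f := by
    intro a a' h
    cases a <;> cases a' <;> simp_all [f]
  refine (mk_le_of_injective hf).trans ?_
  exact hsum (hprod hW (hprod hc hW)) (hprod hJ (hprod hW hW))

theorem mk_rep_le {J : Type} {lam : Cardinal.{0}} (hlam : ℵ_ 1 ≤ lam) (hJ : #J ≤ lam) :
    #(Rep J) ≤ lam := by
  have h0 : ℵ₀ ≤ lam := (aleph0_le_aleph 1).trans hlam
  have hne : Nonempty W := by
    rw [← mk_ne_zero_iff, mk_W]
    exact (aleph_pos 1).ne'
  obtain ⟨w⟩ := hne
  have hinf : Infinite (Atom J) :=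
    Infinite.of_injective (fun n : ℕ => Atom.h w n w) fun n m h => (Atom.h.inj h).2.1
  show #(Finset (Atom J)) ≤ lam
  rw [mk_finset_of_infinite]
  exact mk_atom_le hlam hJ

end Pool.Agent.Helper919.HM.Tbook

namespace Pool.Agent.Helper919.HM

open Cardinal Pool.Agent.Helper919.DQ

open Tbook in
theorem job_book : St_book := by
  classical
  let lam : Cardinal.{0} := 2 ^ ℵ_ 1
  let J : Type := lam.ord.ToType
  have hJ : #J = lam := by
    show #(lam.ord.ToType) = _
    rw [mk_toType, card_ord]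
  have h1 : ℵ_ 1 < lam := cantor _
  have h0 : ℵ₀ ≤ lam := (aleph0_le_aleph 1).trans h1.le
  have hcof : ∀ S : Set J, #S ≤ ℵ_ 1 → ∃ b, ∀ s ∈ S, s < b := by
    intro S hS
    by_contra hcon
    push Not at hcon
    have h1 : IsCofinal S := fun b => by
      obtain ⟨s, hs, hb⟩ := hcon b
      exact ⟨s, hs, hb⟩
    have h2 := Order.cof_le h1
    rw [Ordinal.cof_toType] at h2
    exact absurd (h2.trans hS) (not_le.2 (lt_cof_ord_power (aleph0_le_aleph 1)
      (one_lt_two)))
  have hK : #W ≤ ℵ_ 1 := by rw [mk_W]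
  have hR : #(Rep J) ≤ lam := mk_rep_le h1.le hJ.le
  have hO : #(Option (Rep J)) ≤ lam := by
    rw [mk_option]
    exact (add_le_add hR (one_le_aleph0.trans h0)).trans (add_eq_self h0).le
  have hNm : #(W → W → ℕ → Option (Rep J)) ≤ #J := by
    rw [hJ]
    exact mk_arrow_le (aleph0_le_aleph 1) hK (mk_arrow_le (aleph0_le_aleph 1) hK
      (mk_arrow_le (aleph0_le_aleph 1) (by rw [mk_nat]; exact aleph0_le_aleph 1) hO))
  obtain ⟨F⟩ := hNm
  let f := Function.invFun F
  have hf : ∀ N, f (F N) = N := Function.leftInverse_invFun F.injective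
  have hJJ : #J = #(J × J) := by
    rw [mk_prod, lift_id, hJ, mul_eq_self h0]
  obtain ⟨e⟩ := Cardinal.eq.1 hJJ
  refine ⟨J, inferInstance, inferInstance, fun j x α => {r | ∃ n, f (e j).2 x α n = some r}, hcof,
    fun N hN b => ?_⟩
  choose h hh using fun x => fun α => exists_enum (hN x α)
  have key : ∃ j, b ≤ j ∧ (e j).2 = F h := by
    by_contra hcon
    push Not at hcon
    have h3 : Function.Injective (fun x : J => (⟨e.symm (x, F h), by
        by_contra hc
        exact hcon _ (not_lt.1 hc) (by simp)⟩ : Set.Iio b)) := by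
      intro x y hxy
      have h4 := congrArg Subtype.val hxy
      simpa using h4
    have h4 := mk_le_of_injective h3
    exact absurd h4 (not_le.2 (mk_Iio_lt b (by rw [hJ]; exact (Ordinal.type_toType _).symm)))
  obtain ⟨j, hbj, hj⟩ := key
  refine ⟨j, hbj, ?_⟩
  funext x α
  ext r
  rw [hh x α r]
  simp only [hj, hf, Set.mem_ofPred_eq]

end Pool.Agent.Helper919.HM
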