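import Pool.Agent.Helper919_HM.Stmts

set_option autoImplicit false
set_option linter.unusedSectionVars false
set_option linter.unusedVariables false

/-! # The inductive step of the chain condition -/

namespace Pool.Agent.Helper919.HM.Tcc

open Cardinal Pool.Agent.Helper919.DQ Pool.Agent.Helper919.HM

variable {J : Type} [LinearOrder J] [WellFoundedLT J]

/-- the finite set of the stages -/
noncomputable def sS (p : Rep J) : Finset J := (st_finite p).toFinset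

/-- the finite set of the vertices -/
noncomputable def vS (p : Rep J) : Finset W := (vs_finite p).toFinset

theorem mem_sS {p : Rep J} {i : J} {α γ : W} (h : Atom.c i α γ ∈ p) : i ∈ sS p := by
  simp only [sS, Set.Finite.mem_toFinset]
  exact ⟨α, γ, h⟩

theorem mem_vS_h {p : Rep J} {v : W} {k : ℕ} {x : W} (h : Atom.h v k x ∈ p) : v ∈ vS p := by
  simp only [vS, Set.Finite.mem_toFinset]
  exact Or.inl ⟨k, x, h⟩

theorem mem_vS_c {p : Rep J} {i : J} {α γ : W} (h : Atom.c i α γ ∈ p) : α ∈ vS p := by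
  simp only [vS, Set.Finite.mem_toFinset]
  exact Or.inr (Or.inr (Or.inl ⟨i, γ, h⟩))

/-- the atoms on the root -/
def OnRoot (R : Finset J) (E : Finset W) (a : Atom J) : Prop :=
  match a with
  | .h v _ _ => v ∈ E
  | .c i v _ => i ∈ R ∧ v ∈ E

open Classical in
/-- the trace on the root -/
noncomputable def tr (R : Finset J) (E : Finset W) (p : Rep J) : Rep J :=
  p.filter (OnRoot R E)

open Classical in
theorem mem_tr {R : Finset J} {E : Finset W} {p : Rep J} {a : Atom J} :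
    a ∈ tr R E p ↔ a ∈ p ∧ OnRoot R E a := Finset.mem_filter

/-- initial segments are countable -/
theorem countable_Iio (x : W) : (Set.Iio x).Countable := by
  rw [← Cardinal.le_aleph0_iff_set_countable]
  have h2 : (#(Set.Iio x)) < #W := Cardinal.mk_Iio_lt x (by simp)
  have h3 : #W = Order.succ ℵ₀ := by
    rw [← Cardinal.aleph_zero, Cardinal.succ_aleph]
    simp
  exact Order.lt_succ_iff.1 (h2.trans_eq h3)

/-- a countable set of atoms -/
theorem countable_atoms (π : Par) (R : Finset J) (E : Finset W) :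
    {a : Atom J | OnRoot R E a ∧ match a with
      | .h v _ x => x < v
      | .c _ v x => Al π v x}.Countable := by
  classical
  have h1 : (⋃ v ∈ (E : Set W), ⋃ k : ℕ, ⋃ x ∈ Set.Iio v,
      ({Atom.h v k x} : Set (Atom J))).Countable := by
    refine (E.countable_toSet).biUnion fun v _ => Set.countable_iUnion fun k => ?_
    exact (countable_Iio v).biUnion fun x _ => Set.countable_singleton _
  have h2 : (⋃ i ∈ (R : Set J), ⋃ v ∈ (E : Set W), ⋃ x ∈ (Set.Iio v ∪ Set.Iio π.w0),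
      ({Atom.c i v x} : Set (Atom J))).Countable := by
    refine (R.countable_toSet).biUnion fun i _ => (E.countable_toSet).biUnion fun v _ => ?_
    exact ((countable_Iio v).union (countable_Iio _)).biUnion
      fun x _ => Set.countable_singleton _
  refine (h1.union h2).mono ?_
  rintro a ⟨ha, ha'⟩
  cases a with
  | h v k x =>
    left
    simp only [Set.mem_iUnion]
    exact ⟨v, ha, k, x, ha', rfl⟩
  | c i v x =>
    right
    simp only [Set.mem_iUnion]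
    refine ⟨i, ha.1, v, ha.2, x, ?_, rfl⟩
    by_cases hl : Order.IsSuccLimit v
    · exact Or.inl (ha'.1 hl).2
    · exact Or.inr (ha'.2 hl)

/-- pigeonhole for an uncountable set -/
theorem exists_fib {Z : Type} (Γ : Set W) (T : W → Finset Z) (C : Set Z) (hΓ : ¬ Γ.Countable)
    (hC : C.Countable) (h : ∀ ξ ∈ Γ, ∀ a ∈ T ξ, a ∈ C) :
    ∃ F : Finset Z, ¬ {ξ ∈ Γ | T ξ = F}.Countable := by
  by_contra hn
  push Not at hn
  apply hΓ
  have hcf : {F : Finset Z | (F : Set Z) ⊆ C}.Countable := by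
    have h0 := Set.countable_ofPred_finite_subset hC
    refine (h0.preimage_of_injOn (f := fun F : Finset Z => (F : Set Z)) ?_).mono ?_
    · exact fun a _ b _ hab => Finset.coe_injective hab
    · intro F hF
      exact ⟨F.finite_toSet, hF⟩
  refine (hcf.biUnion fun F _ => hn F).mono fun ξ hξ => ?_
  simp only [Set.mem_iUnion]
  exact ⟨T ξ, fun a ha => h ξ hξ a ha, hξ, rfl⟩

/-- the hypotheses for the union of the graph parts -/
theorem hbase_union [DecidableEq (Atom J)] {p q : Rep J} (hp : HBase p) (hq : HBase q)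
    (h1 : ∀ v k x l y, Atom.h v k x ∈ p → Atom.h v l y ∈ q → Atom.h v k x ∈ q) :
    HBase (p ∪ q) := by
  obtain ⟨a1, a2, a3, a4⟩ := hp
  obtain ⟨b1, b2, b3, b4⟩ := hq
  refine ⟨fun v k x y hx hy => ?_, fun v k l x y hx hy hkl => ?_, fun v k l y hy hkl => ?_,
    fun v k x hx => ?_⟩
  · rcases Finset.mem_union.1 hx with hx | hx <;> rcases Finset.mem_union.1 hy with hy | hy
    · exact a1 v k x y hx hy
    · exact b1 v k x y (h1 _ _ _ _ _ hx hy) hy
    · exact b1 v k x y hx (h1 _ _ _ _ _ hy hx)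
    · exact b1 v k x y hx hy
  · rcases Finset.mem_union.1 hx with hx | hx <;> rcases Finset.mem_union.1 hy with hy | hy
    · exact a2 v k l x y hx hy hkl
    · exact b2 v k l x y (h1 _ _ _ _ _ hx hy) hy hkl
    · exact b2 v k l x y hx (h1 _ _ _ _ _ hy hx) hkl
    · exact b2 v k l x y hx hy hkl
  · rcases Finset.mem_union.1 hy with hy | hy
    · obtain ⟨x, hx⟩ := a3 v k l y hy hkl
      exact ⟨x, Finset.mem_union_left _ hx⟩
    · obtain ⟨x, hx⟩ := b3 v k l y hy hkl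
      exact ⟨x, Finset.mem_union_right _ hx⟩
  · rcases Finset.mem_union.1 hx with hx | hx
    · exact a4 v k x hx
    · exact b4 v k x hx

variable {g : J → W → W → Set (Rep J)} {π : Par}

/-- the amalgamation without common stages -/
theorem amal0 [DecidableEq (Atom J)] {j : J} {p q : Rep J} {E : Finset W}
    (hp : p ∈ Vd g π j) (hq : q ∈ Vd g π j)
    (hst : ∀ i ∈ sS p, i ∈ sS q → False) (hvs : ∀ x ∈ vS p, x ∈ vS q → x ∈ E)
    (htr : ∀ v k x, v ∈ E → Atom.h v k x ∈ p → Atom.h v k x ∈ q) :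
    p ∪ q ∈ Vd g π j := by
  have hpo := ok_of_mem hp
  have hqo := ok_of_mem hq
  refine mem_of_ok (ok_of_parts (hbase_union hpo.1 hqo.1 fun v k x l y hx hy =>
    htr v k x (hvs v (mem_vS_h hx) (mem_vS_h hy)) hx) ?_ ?_ ?_) ?_
  · intro i α γ γ' ha hb
    rcases Finset.mem_union.1 ha with ha | ha <;> rcases Finset.mem_union.1 hb with hb | hb
    · exact (hpo.2 i).1.1 α γ γ' ha hb
    · exact (hst i (mem_sS ha) (mem_sS hb)).elim
    · exact (hst i (mem_sS hb) (mem_sS ha)).elim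
    · exact (hqo.2 i).1.1 α γ γ' ha hb
  · intro i α γ ha
    rcases Finset.mem_union.1 ha with ha | ha
    · exact ⟨p, hpo, ha⟩
    · exact ⟨q, hqo, ha⟩
  · intro i α α' γ hlt ha hb
    rcases Finset.mem_union.1 ha with ha | ha <;> rcases Finset.mem_union.1 hb with hb | hb
    · exact ne_of_ok hpo Finset.subset_union_left hlt ha hb
    · exact (hst i (mem_sS ha) (mem_sS hb)).elim
    · exact (hst i (mem_sS hb) (mem_sS ha)).elim
    · exact ne_of_ok hqo Finset.subset_union_right hlt ha hb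
  · intro a ha
    rcases Finset.mem_union.1 ha with ha | ha
    · exact ((mem_Vd g π).1 hp).2.1 a ha
    · exact ((mem_Vd g π).1 hq).2.1 a ha

/-- the amalgamation over a common extension at the last common stage -/
theorem amal1 [DecidableEq (Atom J)] {i j : J} (hij : i < j) {p q u r : Rep J} {R : Finset J}
    {E B : Finset W} {b z : W} (hp : p ∈ Vd g π j) (hq : q ∈ Vd g π j) (hu : u ∈ Vd g π i)
    (hpu : ∀ a ∈ p, a.Bel i → a ∈ u) (hqu : ∀ a ∈ q, a.Bel i → a ∈ u) (hru : r ⊆ u)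
    (hR : ∀ i' ∈ R, i' ≤ i)
    (hst : ∀ i' ∈ sS p, i' ∈ sS q → i' ∈ R) (hvs : ∀ x ∈ vS p, x ∈ vS q → x ∈ E)
    (htr : ∀ a, OnRoot R E a → (a ∈ p ↔ a ∈ q))
    (hb : ∀ x ∈ vS p, x ≤ b) (hbz : b < z) (hz : ∀ x ∈ vS q, x ∉ E → z < x)
    (hB : ∀ x ∈ vS p, x ∉ E → x ∉ B)
    (hne : ∀ α ∈ vS q, α ∉ E → ∀ x < z, x ∉ B → NE (g i) (Vd g π i) i r x α) :
    u ∪ (p ∪ q) ∈ Vd g π j := by
  have hpo := ok_of_mem hp
  have hqo := ok_of_mem hq
  have huo := ok_of_mem hu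
  have hub := ((mem_Vd g π).1 hu).2.1
  have key : ∀ a ∈ u ∪ (p ∪ q), a.Bel i → a ∈ u := by
    intro a ha hb
    rcases Finset.mem_union.1 ha with hm | hm
    · exact hm
    · rcases Finset.mem_union.1 hm with hm | hm
      · exact hpu _ hm hb
      · exact hqu _ hm hb
  have key' : ∀ a ∈ u ∪ (p ∪ q), ¬ a.Bel i → a ∈ p ∨ a ∈ q := by
    intro a ha hb
    rcases Finset.mem_union.1 ha with hm | hm
    · exact absurd (hub _ hm) hb
    · exact Finset.mem_union.1 hm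
  have hsu : u ⊆ u ∪ (p ∪ q) := Finset.subset_union_left
  have hsp : p ⊆ u ∪ (p ∪ q) := Finset.subset_union_left.trans Finset.subset_union_right
  have hsq : q ⊆ u ∪ (p ∪ q) := Finset.subset_union_right.trans Finset.subset_union_right
  refine mem_of_ok (ok_of_parts ?_ ?_ ?_ ?_) ?_
  · exact huo.1.of_iff fun v k x => ⟨fun hm => key _ hm trivial, fun hm => hsu hm⟩
  · intro i' α γ γ' ha hb'
    by_cases hi : i' < i
    · exact (huo.2 i').1.1 α γ γ' (key _ ha hi) (key _ hb' hi)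
    · have hac : ∀ c, Atom.c i' α c ∈ p → ∀ c', Atom.c i' α c' ∈ q → Atom.c i' α c ∈ q := by
        intro c hc c' hc'
        exact (htr (Atom.c i' α c) ⟨hst i' (mem_sS hc) (mem_sS hc'),
          hvs α (mem_vS_c hc) (mem_vS_c hc')⟩).1 hc
      rcases key' _ ha hi with ha | ha <;> rcases key' _ hb' hi with hb' | hb'
      · exact (hpo.2 i').1.1 α γ γ' ha hb'
      · exact (hqo.2 i').1.1 α γ γ' (hac _ ha _ hb') hb'
      · exact (hqo.2 i').1.1 α γ γ' ha (hac _ hb' _ ha)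
      · exact (hqo.2 i').1.1 α γ γ' ha hb'
  · intro i' α γ ha
    rcases Finset.mem_union.1 ha with hm | hm
    · exact ⟨u, huo, hm⟩
    · rcases Finset.mem_union.1 hm with hm | hm
      · exact ⟨p, hpo, hm⟩
      · exact ⟨q, hqo, hm⟩
  · intro i' α α' γ hlt ha hb'
    by_cases hi : i' < i
    · exact ne_of_ok huo hsu hlt (key _ ha hi) (key _ hb' hi)
    · rcases key' _ ha hi with ha | ha <;> rcases key' _ hb' hi with hb' | hb'
      · exact ne_of_ok hpo hsp hlt ha hb'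
      · have hiR : i' ∈ R := hst i' (mem_sS ha) (mem_sS hb')
        have hii : i' = i := le_antisymm (hR i' hiR) (not_lt.1 hi)
        subst hii
        by_cases hα : α ∈ E
        · exact ne_of_ok hqo hsq hlt ((htr (Atom.c i' α γ) ⟨hiR, hα⟩).1 ha) hb'
        · by_cases hα' : α' ∈ E
          · exact ne_of_ok hpo hsp hlt ha ((htr (Atom.c i' α' γ) ⟨hiR, hα'⟩).2 hb')
          · refine ⟨r, fun a har _ => hsu (hru har), ?_⟩
            refine hne α' (mem_vS_c hb') hα' α ?_ (hB α (mem_vS_c ha) hα)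
            exact lt_of_le_of_lt (hb α (mem_vS_c ha)) hbz
      · have hiR : i' ∈ R := hst i' (mem_sS hb') (mem_sS ha)
        by_cases hα : α ∈ E
        · exact ne_of_ok hpo hsp hlt ((htr (Atom.c i' α γ) ⟨hiR, hα⟩).2 ha) hb'
        · by_cases hα' : α' ∈ E
          · exact ne_of_ok hqo hsq hlt ha ((htr (Atom.c i' α' γ) ⟨hiR, hα'⟩).1 hb')
          · exfalso
            have h1 := hz α (mem_vS_c ha) hα
            have h2 := hb α' (mem_vS_c hb')
            exact absurd hlt (not_lt.2 (h2.trans (hbz.le.trans h1.le)))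
      · exact ne_of_ok hqo hsq hlt ha hb'
  · intro a ha
    rcases Finset.mem_union.1 ha with hm | hm
    · exact (hub a hm).mono hij.le
    · rcases Finset.mem_union.1 hm with hm | hm
      · exact ((mem_Vd g π).1 hp).2.1 a hm
      · exact ((mem_Vd g π).1 hq).2.1 a hm

theorem ctb_mono {X : Type} {Γ Γ' : Set W} (h : Γ ⊆ Γ') (V : W → Finset X) {x : X}
    (hc : {γ ∈ Γ' | x ∈ V γ}.Countable) : {γ ∈ Γ | x ∈ V γ}.Countable :=
  hc.mono (by rintro γ ⟨h1, h2⟩; exact ⟨h h1, h2⟩)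

theorem exists_two {Γ : Set W} (h : ¬ Γ.Countable) : ∃ ξ ∈ Γ, ∃ η ∈ Γ, ξ < η := by
  by_contra hn
  push Not at hn
  apply h
  have : Γ.Subsingleton := fun a ha b hb => le_antisymm (hn b hb a ha) (hn a ha b hb)
  exact this.finite.countable

/-- the exceptional sets of the spacing are countable -/
theorem ctb_of {X : Type} (Γ : Set W) (V : W → Finset X) (E : Finset X) (A : Finset X)
    (h : ∀ x ∉ E, {γ ∈ Γ | x ∈ V γ}.Countable) :
    {γ ∈ Γ | ¬ ∀ x ∈ A, x ∈ V γ → x ∈ E}.Countable := by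
  classical
  have : (⋃ x ∈ ((A \ E : Finset X) : Set X), {γ ∈ Γ | x ∈ V γ}).Countable := by
    refine (Finset.countable_toSet _).biUnion fun x hx => h x ?_
    exact (Finset.mem_sdiff.1 (Finset.mem_coe.1 hx)).2
  refine this.mono ?_
  rintro γ ⟨hγ, hn⟩
  push Not at hn
  obtain ⟨x, hx, hx', hxE⟩ := hn
  simp only [Set.mem_iUnion]
  exact ⟨x, Finset.mem_coe.2 (Finset.mem_sdiff.2 ⟨hx, hxE⟩), hγ, hx'⟩

variable (g) (π)

theorem job_cc (hcroot : St_croot) (hspace : St_space) (hdec : St_dec g π) : St_cc g π := by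
  classical
  intro j hcc Γ f hΓ hf
  obtain ⟨R, Γ1, h1s, h1u, hR1, hR2⟩ := hcroot J (fun ξ => sS (f ξ)) Γ hΓ
  obtain ⟨E, Γ2, h2s, h2u, hE1, hE2⟩ := hcroot W (fun ξ => vS (f ξ)) Γ1 h1u
  have h2f : ∀ ξ ∈ Γ2, f ξ ∈ Vd g π j := fun ξ hξ => hf ξ (h1s (h2s hξ))
  obtain ⟨T0, h3u⟩ := exists_fib Γ2 (fun ξ => tr R E (f ξ)) _ h2u (countable_atoms π R E)
    (by
      intro ξ hξ a ha
      obtain ⟨ha1, ha2⟩ := mem_tr.1 ha
      refine ⟨ha2, ?_⟩
      have hok := ok_of_mem (h2f ξ hξ)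
      cases a with
      | h v k x => exact (hok.1.2.2.2 v k x ha1).1
      | c i v x => exact (hok.2 i).1.2 v x ha1)
  set Γ3 : Set W := {ξ ∈ Γ2 | tr R E (f ξ) = T0} with hΓ3
  have h32 : Γ3 ⊆ Γ2 := fun ξ hξ => hξ.1
  have htr : ∀ ξ ∈ Γ3, ∀ η ∈ Γ3, ∀ a, OnRoot R E a → (a ∈ f ξ ↔ a ∈ f η) := by
    intro ξ hξ η hη a ha
    have h : tr R E (f ξ) = tr R E (f η) := hξ.2.trans hη.2.symm
    constructor
    · intro h'
      have : a ∈ tr R E (f η) := h ▸ mem_tr.2 ⟨h', ha⟩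
      exact (mem_tr.1 this).1
    · intro h'
      have : a ∈ tr R E (f ξ) := h ▸ mem_tr.2 ⟨h', ha⟩
      exact (mem_tr.1 this).1
  have hne : Nonempty W := by
    obtain ⟨ξ, _⟩ := exists_two hΓ
    exact ⟨ξ⟩
  have hbex : ∀ ξ, ∃ b : W, ∀ x ∈ vS (f ξ), x ≤ b := fun ξ => (vS (f ξ)).exists_le
  choose b hb using hbex
  obtain ⟨Γ4, z, h4s, h4u, h4z, h4Q⟩ := hspace Γ3 (fun ξ => vS (f ξ)) E b
    (fun γ γ' => (∀ x ∈ vS (f γ), x ∈ vS (f γ') → x ∈ E) ∧
      ∀ i ∈ sS (f γ), i ∈ sS (f γ') → i ∈ R) h3u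
    (fun x hx => ctb_mono h32 (fun ξ => vS (f ξ)) (hE2 x hx))
    (by
      intro γ hγ
      have e1 := ctb_of Γ3 (fun ξ => vS (f ξ)) E (vS (f γ))
        (fun x hx => ctb_mono h32 (fun ξ => vS (f ξ)) (hE2 x hx))
      have e2 := ctb_of Γ3 (fun ξ => sS (f ξ)) R (sS (f γ))
        (fun x hx => ctb_mono (h32.trans h2s) (fun ξ => sS (f ξ)) (hR2 x hx))
      refine (e1.union e2).mono ?_
      rintro γ' ⟨hγ', hn⟩
      by_cases h : ∀ x ∈ vS (f γ), x ∈ vS (f γ') → x ∈ E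
      · exact Or.inr ⟨hγ', fun h' => hn ⟨h, h'⟩⟩
      · exact Or.inl ⟨hγ', h⟩)
  rcases R.eq_empty_or_nonempty with hRe | hRne
  · obtain ⟨ξ, hξ, η, hη, hlt⟩ := exists_two h4u
    obtain ⟨_, hQ1, hQ2⟩ := h4Q ξ hξ η hη hlt
    refine ⟨ξ, h1s (h2s (h32 (h4s hξ))), η, h1s (h2s (h32 (h4s hη))), hlt, f ξ ∪ f η,
      amal0 (h2f ξ (h32 (h4s hξ))) (h2f η (h32 (h4s hη))) ?_ hQ1 ?_,
      Finset.subset_union_left, Finset.subset_union_right⟩
    · intro i hi hi'
      have := hQ2 i hi hi'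
      rw [hRe] at this
      exact absurd this (Finset.notMem_empty i)
    · intro v k x hv hx
      exact (htr ξ (h4s hξ) η (h4s hη) (Atom.h v k x) hv).1 hx
  · have hiR := R.max'_mem hRne
    set i := R.max' hRne with hi
    have hiin : ∀ ξ ∈ Γ4, ∃ α γ, Atom.c i α γ ∈ f ξ := by
      intro ξ hξ
      have h := hR1 ξ (h2s (h32 (h4s hξ))) hiR
      simpa only [sS, Set.Finite.mem_toFinset, st, Set.mem_ofPred_eq] using h
    obtain ⟨ξ0, hξ0, _⟩ := exists_two h4u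
    obtain ⟨α0, γ0, ha0⟩ := hiin ξ0 hξ0
    have hij : i < j := ((mem_Vd g π).1 (h2f ξ0 (h32 (h4s hξ0)))).2.1 _ ha0
    have hok : OKn (g i) (Vd g π i) :=
      ((ok_of_mem (h2f ξ0 (h32 (h4s hξ0)))).2 i).2.1 α0 γ0 ha0
    have hr : ∀ y ∈ Γ4, ∃ (r : Rep J) (B : Finset W), r ∈ Vd g π i ∧ res (f y) i ⊆ r ∧
        ∀ α ∈ vS (f y), α ∉ E → ∀ x < z y, x ∉ B → NE (g i) (Vd g π i) i r x α := by
      intro y hy
      obtain ⟨r, hr, hrs, B, _, hB⟩ := hdec i hok (vS (f y) \ E) (z y)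
        (fun α hα => (h4z y hy).2.1 α (Finset.mem_sdiff.1 hα).1 (Finset.mem_sdiff.1 hα).2)
        (res (f y) i) (res_mem' (h2f y (h32 (h4s hy))) hij.le)
      exact ⟨r, B, hr, hrs, fun α hα hαE x hx hxB =>
        hB α (Finset.mem_sdiff.2 ⟨hα, hαE⟩) x hx hxB⟩
    choose! r B hrm hrs hrB using hr
    obtain ⟨F, Γ5, h5s, h5u, hF1, hF2⟩ := hcroot W B Γ4 h4u
    have hE5 : ∀ x ∉ E, {γ ∈ Γ5 | x ∈ vS (f γ)}.Countable := fun x hx =>
      ctb_mono ((h5s.trans h4s).trans h32) (fun ξ => vS (f ξ)) (hE2 x hx)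
    have h6u : ¬ {y ∈ Γ5 | ∀ x ∈ F, x ∈ vS (f y) → x ∈ E}.Countable := by
      intro hc
      apply h5u
      refine (hc.union (ctb_of Γ5 (fun ξ => vS (f ξ)) E F hE5)).mono fun y hy => ?_
      by_cases h : ∀ x ∈ F, x ∈ vS (f y) → x ∈ E
      · exact Or.inl ⟨hy, h⟩
      · exact Or.inr ⟨hy, h⟩
    set Γ6 : Set W := {y ∈ Γ5 | ∀ x ∈ F, x ∈ vS (f y) → x ∈ E} with hΓ6
    obtain ⟨Γ7, z', h7s, h7u, _, h7Q⟩ := hspace Γ6 (fun ξ => vS (f ξ)) E b
      (fun γ γ' => ∀ x ∈ vS (f γ), x ∉ E → x ∉ B γ') h6u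
      (fun x hx => ctb_mono (fun γ hγ => hγ.1) (fun ξ => vS (f ξ)) (hE5 x hx))
      (by
        intro γ hγ
        have e1 := ctb_of Γ5 B F (vS (f γ) \ E) hF2
        refine e1.mono ?_
        rintro γ' ⟨hγ', hn⟩
        refine ⟨hγ'.1, fun hall => hn fun x hx hxE hxB => ?_⟩
        exact hxE (hγ.2 x (hall x (Finset.mem_sdiff.2 ⟨hx, hxE⟩) hxB) hx))
    have h74 : ∀ ξ ∈ Γ7, ξ ∈ Γ4 := fun ξ hξ => h5s (h7s hξ).1
    obtain ⟨ξ, hξ, η, hη, hlt, u, hu, hru, hru'⟩ := hcc i hij Γ7 r h7u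
      (fun ξ hξ => hrm ξ (h74 ξ hξ))
    obtain ⟨hbz, hQ1, hQ2⟩ := h4Q ξ (h74 ξ hξ) η (h74 η hη) hlt
    refine ⟨ξ, h1s (h2s (h32 (h4s (h74 ξ hξ)))), η, h1s (h2s (h32 (h4s (h74 η hη)))), hlt,
      u ∪ (f ξ ∪ f η), amal1 (R := R) (E := E) (B := B η) (b := b ξ) (z := z η) (r := r η) hij
        (h2f ξ (h32 (h4s (h74 ξ hξ)))) (h2f η (h32 (h4s (h74 η hη)))) hu ?_ ?_ hru'
        (fun i' hi' => R.le_max' i' hi') hQ2 hQ1
        (htr ξ (h4s (h74 ξ hξ)) η (h4s (h74 η hη))) (hb ξ) hbz ?_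
        (h7Q ξ hξ η hη hlt).2 (hrB η (h74 η hη)), ?_, ?_⟩
    · exact fun a ha hab => hru (hrs ξ (h74 ξ hξ) (mem_res.2 ⟨ha, hab⟩))
    · exact fun a ha hab => hru' (hrs η (h74 η hη) (mem_res.2 ⟨ha, hab⟩))
    · exact fun x hx hxE => (h4z η (h74 η hη)).2.1 x hx hxE
    · exact Finset.subset_union_left.trans Finset.subset_union_right
    · exact Finset.subset_union_right.trans Finset.subset_union_right

end Pool.Agent.Helper919.HM.Tcc
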