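import Pool.Agent.Helper919_HM.Stmts

set_option autoImplicit false
set_option linter.unusedSectionVars false

/-! # The generic graph has small neighbourhoods and is not countably chromatic -/

namespace Pool.Agent.Helper919.HM.Tgen

open Cardinal Pool.Agent.Helper919.DQ Pool.Agent.Helper919.HM

universe u v

theorem forr_left {P : Type u} [Preorder P] {φ ψ : Set P} (hd : Down φ) {p : P} (h : p ∈ φ) :
    p ∈ forr φ ψ := by
  intro q hq hq'
  exact hq'.1 q le_rfl (hd p h q hq)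

theorem forr_right {P : Type u} [Preorder P] {φ ψ : Set P} (hd : Down ψ) {p : P} (h : p ∈ ψ) :
    p ∈ forr φ ψ := by
  intro q hq hq'
  exact hq'.2 q le_rfl (hd p h q hq)

theorem down_fground {P : Type u} [Preorder P] (h : Prop) : Down (fground h : Set P) :=
  fun _ hp _ _ => hp

/-- below a limit there is room above finitely many elements -/
theorem exists_room {α ζ : W} (hα : Order.IsSuccLimit α) (hζ : ζ < α) {F : Set W} (hF : F.Finite)
    (hFα : ∀ x ∈ F, x < α) : ∃ β, β < α ∧ ζ < β ∧ ∀ x ∈ F, x < β := by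
  classical
  have hne : (insert ζ hF.toFinset).Nonempty := Finset.insert_nonempty _ _
  have h1 : (insert ζ hF.toFinset).max' hne < α := by
    rw [Finset.max'_lt_iff]
    intro y hy
    rcases Finset.mem_insert.1 hy with rfl | hy
    · exact hζ
    · exact hFα y (hF.mem_toFinset.1 hy)
  have h2 : ¬ ((insert ζ hF.toFinset).max' hne ⋖ α) := hα.isSuccPrelimit _
  obtain ⟨β, hβ, hβα⟩ := (not_covBy_iff h1).1 h2
  refine ⟨β, hβα, lt_of_le_of_lt (Finset.le_max' _ _ (Finset.mem_insert_self _ _)) hβ,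
    fun x hx => lt_of_le_of_lt (Finset.le_max' _ _ ?_) hβ⟩
  exact Finset.mem_insert_of_mem (hF.mem_toFinset.2 hx)

variable {J : Type} {g : J → W → W → Set (Rep J)} {π : Par} [LinearOrder J] [WellFoundedLT J]

/-- adding the next neighbour of `α` -/
theorem exists_next (q : Cd g π) {α ζ : W} (hα : Order.IsSuccLimit α) (hζ : ζ < α) :
    ∃ r : Cd g π, r ≤ q ∧ ∃ k β, Atom.h α k β ∈ r.1 ∧ β < α ∧ ζ < β := by
  classical
  obtain ⟨q, hq⟩ := q
  have hfin : {x | ∃ l, Atom.h α l x ∈ q}.Finite := by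
    refine (vs_finite q).subset ?_
    rintro x ⟨l, hl⟩
    exact Or.inr (Or.inl ⟨α, l, hl⟩)
  obtain ⟨β, hβα, hζβ, hβ⟩ := exists_room hα hζ hfin (by
    rintro x ⟨l, hl⟩
    exact (hq.1.2.2.2 _ _ _ hl).1)
  have hex : ∃ k, ∀ x, Atom.h α k x ∉ q := by
    by_contra hcon
    push Not at hcon
    choose x hx using hcon
    have hinj : Function.Injective fun k => Atom.h (J := J) α k (x k) := by
      intro k l hkl
      simp only [Atom.h.injEq] at hkl
      exact hkl.2.1
    exact (Set.infinite_of_injective_forall_mem hinj (s := (q : Set (Atom J)))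
      fun k => Finset.mem_coe.2 (hx k)) q.finite_toSet
  set k := Nat.find hex with hk
  have hk0 : ∀ x, Atom.h α k x ∉ q := Nat.find_spec hex
  have hlt : ∀ l < k, ∃ x, Atom.h α l x ∈ q := by
    intro l hl
    have := Nat.find_min hex hl
    push Not at this
    exact this
  have hge : ∀ l x, Atom.h α l x ∈ q → l < k := by
    intro l x hl
    by_contra hcon
    rcases lt_or_eq_of_le (not_lt.1 hcon) with h | h
    · obtain ⟨y, hy⟩ := hq.1.2.2.1 α k l x hl h
      exact hk0 y hy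
    · exact hk0 x (h ▸ hl)
  have hmem : ∀ {a : Atom J}, a ∈ insert (Atom.h α k β) q ↔ a = Atom.h α k β ∨ a ∈ q :=
    Finset.mem_insert
  have hc : ∀ {i : J} {x y : W}, Atom.c i x y ∈ insert (Atom.h α k β) q → Atom.c i x y ∈ q := by
    intro i x y h
    rcases hmem.1 h with h | h
    · cases h
    · exact h
  have hH : HBase (insert (Atom.h α k β) q) := by
    obtain ⟨h1, h2, h3, h4⟩ := hq.1
    refine ⟨fun v l x y hx hy => ?_, fun v l m x y hx hy hlm => ?_, fun v l m y hy hlm => ?_,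
      fun v l x hx => ?_⟩
    · rcases hmem.1 hx with hx | hx <;> rcases hmem.1 hy with hy | hy
      · cases hx; cases hy; rfl
      · cases hx; exact absurd hy (hk0 y)
      · cases hy; exact absurd hx (hk0 x)
      · exact h1 v l x y hx hy
    · rcases hmem.1 hx with hx | hx <;> rcases hmem.1 hy with hy | hy
      · cases hx; cases hy; exact absurd hlm (lt_irrefl _)
      · cases hx; exact absurd hlm (not_lt.2 (hge m y hy).le)
      · cases hy; exact hβ x ⟨l, hx⟩
      · exact h2 v l m x y hx hy hlm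
    · rcases hmem.1 hy with hy | hy
      · cases hy
        obtain ⟨x, hx⟩ := hlt l hlm
        exact ⟨x, hmem.2 (Or.inr hx)⟩
      · obtain ⟨x, hx⟩ := h3 v l m y hy hlm
        exact ⟨x, hmem.2 (Or.inr hx)⟩
    · rcases hmem.1 hx with hx | hx
      · cases hx; exact ⟨hβα, hα⟩
      · exact h4 v l x hx
  have hok : Ok g π (insert (Atom.h α k β) q) := by
    refine ok_of_parts hH (fun i x y y' h h' => (hq.2 i).1.1 x y y' (hc h) (hc h'))
      (fun i x y h => ⟨q, hq, hc h⟩) fun i x x' y hxx h h' => ?_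
    exact ne_of_ok hq (Finset.subset_insert _ _) hxx (hc h) (hc h')
  exact ⟨⟨_, hok⟩, Finset.subset_insert _ _, k, β, hmem.2 (Or.inl rfl), hβα, hζβ⟩

theorem not_meets_of_not_limit {α β : W} (hα : ¬ Order.IsSuccLimit α) (q : Cd g π) :
    q ∉ meets (Hn g π β α) := by
  intro h
  obtain ⟨r, -, s, ⟨k, hk⟩, -⟩ := h q le_rfl
  exact hα (s.2.1.2.2.2 _ _ _ hk).2

theorem exists_of_meets_Hn {α β : W} {q : Cd g π} (h : q ∈ meets (Hn g π β α)) :
    ∃ r : Cd g π, r ≤ q ∧ ∃ k, Atom.h α k β ∈ r.1 := by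
  obtain ⟨r, hr, s, ⟨k, hk⟩, hrs⟩ := h q le_rfl
  exact ⟨r, hr, k, hrs hk⟩

end Tgen

open Cardinal Pool.Agent.Helper919.DQ Tgen

variable {J : Type} (g : J → W → W → Set (Rep J)) (π : Par) [LinearOrder J] [WellFoundedLT J]

theorem job_small : St_small g π := by
  classical
  intro p α
  by_cases hα : Order.IsSuccLimit α
  · refine forr_right ?_ ?_
    · exact down_fall fun _ => down_fall fun _ => down_fand (down_fex _) (down_fex _)
    · intro ζ hζ
      refine ⟨mem_fex.2 fun q _ => ?_, mem_fex.2 fun q _ => ?_⟩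
      · obtain ⟨r, hr, k, β, hβ, hβα, hζβ⟩ := exists_next q hα hζ
        exact ⟨r, hr, β, ⟨hζβ.le, hβα⟩, meets_of_mem ⟨k, hβ⟩⟩
      · obtain ⟨r, hr, k, β₀, hβ₀, -, hζβ⟩ := exists_next q hα hζ
        refine ⟨r, hr, (vs_finite r.1).toFinset, fun β hβ => ?_⟩
        rw [mem_fimp]
        intro s hs hsm
        refine ⟨s, le_rfl, ?_⟩
        change β ∈ (vs_finite r.1).toFinset
        rw [Set.Finite.mem_toFinset]
        obtain ⟨t, ht, l, hl⟩ := exists_of_meets_Hn hsm
        have htr : r.1 ⊆ t.1 := le_iff.1 (ht.trans hs)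
        have hlk : l < k := by
          by_contra hcon
          rcases lt_or_eq_of_le (not_lt.1 hcon) with h | h
          · have := t.2.1.2.1 α k l β₀ β (htr hβ₀) hl h
            exact absurd (this.trans (hβ.trans hζβ)) (lt_irrefl _)
          · subst h
            have := t.2.1.1 α k β₀ β (htr hβ₀) hl
            subst this
            exact absurd (hβ.trans hζβ) (lt_irrefl _)
        obtain ⟨y, hy⟩ := r.2.1.2.2.1 α l k β₀ hβ₀ hlk
        have hyb : y = β := t.2.1.1 α l y β (htr hy) hl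
        exact Or.inr (Or.inl ⟨α, l, hyb ▸ hy⟩)
  · refine forr_left (down_fex _) ?_
    refine mem_fex_of_mem ∅ (down_fall fun _ => down_fall fun _ => down_fimp _ _) fun β hβ => ?_
    rw [mem_fimp]
    intro q _ hq
    exact absurd hq (not_meets_of_not_limit hα q)

theorem job_unc (hfib : St_fiber) (hmono : St_mono) (hctb : St_ctb) : St_unc g π := by
  classical
  intro hst hcof hMn p q _ hq
  obtain ⟨r, -, c, hfun, hcol⟩ := mem_fex.1 hq q le_rfl
  -- the colours of the vertices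
  have h1 : ∀ ξ : W, ∃ (s : Cd g π) (n : ℕ), s ≤ r ∧ s ∈ meets (c ξ n) := by
    intro ξ
    obtain ⟨s, hs, n, hn⟩ := mem_fex.1 (hfun.1 ξ) r le_rfl
    exact ⟨s, n, hs, hn⟩
  choose s n hs hn using h1
  -- all conditions are in one stage
  obtain ⟨j, hj⟩ : ∃ j, ∀ ξ, (s ξ).1 ∈ Vd g π j := by
    have hcard : #(⋃ ξ : W, st (s ξ).1 : Set J) ≤ ℵ_ 1 := by
      refine (Cardinal.mk_iUnion_le _).trans ?_
      have e1 : #W = ℵ_ 1 := by
        rw [Cardinal.mk_ord_toType]
      rw [e1]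
      have e2 : (⨆ ξ : W, #(st (s ξ).1)) ≤ ℵ_ 1 := by
        refine ciSup_le' fun ξ => ?_
        have : #(st (s ξ).1) < ℵ₀ := Cardinal.lt_aleph0_iff_set_finite.2 (st_finite _)
        exact this.le.trans (Cardinal.aleph0_le_aleph 1)
      calc ℵ_ 1 * (⨆ ξ : W, #(st (s ξ).1)) ≤ ℵ_ 1 * ℵ_ 1 := mul_le_mul_right e2 _
        _ = ℵ_ 1 := Cardinal.mul_eq_self (Cardinal.aleph0_le_aleph 1)
    obtain ⟨b, hb⟩ := hcof _ hcard
    refine ⟨b, fun ξ => mem_of_ok (s ξ).2 fun a ha => ?_⟩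
    cases a with
    | h => trivial
    | c i x y => exact hb i (Set.mem_iUnion.2 ⟨ξ, x, y, ha⟩)
  -- stationary sets of constant colour
  have h2 : ∀ γ : W, ∃ m : ℕ, ¬ NS {ξ ∈ {ξ | Order.IsSuccLimit ξ ∧ γ ≤ π.ρ ξ} | n ξ = m} := by
    intro γ
    obtain ⟨m, -, hm⟩ := hfib _ ℕ Set.univ n (hst γ) Set.countable_univ fun _ _ => trivial
    exact ⟨m, hm⟩
  choose m hm using h2
  have hne : Nonempty W := by
    rw [← Cardinal.mk_ne_zero_iff, Cardinal.mk_ord_toType]
    exact (Cardinal.aleph_pos 1).ne'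
  obtain ⟨z⟩ := hne
  have huniv : ¬ NS (Set.univ : Set W) := fun h => hst z (hmono _ _ h (Set.subset_univ _))
  obtain ⟨m₀, -, hm₀⟩ := hfib Set.univ ℕ Set.univ m huniv Set.countable_univ fun _ _ => trivial
  have hunc : ¬ {γ ∈ (Set.univ : Set W) | m γ = m₀}.Countable := fun h => hm₀ (hctb _ h)
  obtain ⟨γ, hγ, γ', hγ', -, hall⟩ := hMn j _ hunc
    (fun γ => {ξ ∈ {ξ | Order.IsSuccLimit ξ ∧ γ ≤ π.ρ ξ} | n ξ = m γ}) (fun _ ξ => (s ξ).1)
    (fun γ _ => hm γ) (fun γ _ ξ hξ => ⟨hξ.1.1, hξ.1.2, hj ξ⟩)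
  obtain ⟨ξ, hξ, η, hη, -, hξη, u, hu, hsu, hsu', k, hk⟩ := hall z
  let U : Cd g π := ⟨u, ok_of_mem hu⟩
  have hU1 : U ≤ s ξ := hsu
  have hU2 : U ≤ s η := hsu'
  have hnξ : n ξ = m₀ := hξ.2.trans hγ.2
  have hnη : n η = m₀ := hη.2.trans hγ'.2
  have hUm : U ∈ meets (Hn g π ξ η) := meets_of_mem ⟨k, hk⟩
  have h3 := hcol η ξ hξη
  rw [mem_fimp] at h3
  obtain ⟨t, ht, htx⟩ := h3 U (hU1.trans (hs ξ)) hUm
  refine htx m₀ t le_rfl ⟨?_, ?_⟩
  · exact down_meets _ _ (hnξ ▸ hn ξ) _ (ht.trans hU1)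
  · exact down_meets _ _ (hnη ▸ hn η) _ (ht.trans hU2)

end Pool.Agent.Helper919.HM
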