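import Pool.Agent.Helper919_HM.Stmts

set_option autoImplicit false
set_option linter.unusedSectionVars false
set_option linter.unusedVariables false

/-! # Good conditions, the countable chain condition -/

namespace Pool.Agent.Helper919.HM.Tgood

open Cardinal Pool.Agent.Helper919.DQ

/-- maximal antichains inside a set -/
theorem exists_max {X : Type} (R : X → X → Prop) (hsymm : ∀ x y, R x y → R y x) (D : Set X)
    (hrefl : ∀ x ∈ D, R x x) :
    ∃ A ⊆ D, (∀ a ∈ A, ∀ b ∈ A, R a b → a = b) ∧ ∀ p ∈ D, ∃ a ∈ A, R a p := by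
  obtain ⟨A, hA⟩ := zorn_subset {A : Set X | A ⊆ D ∧ ∀ a ∈ A, ∀ b ∈ A, R a b → a = b}
    (by
      intro c hc hchain
      refine ⟨⋃₀ c, ⟨Set.sUnion_subset fun s hs => (hc hs).1, ?_⟩,
        fun s hs => Set.subset_sUnion_of_mem hs⟩
      rintro a ⟨s, hs, ha⟩ b ⟨t, ht, hb⟩ hab
      rcases hchain.total hs ht with h | h
      · exact (hc ht).2 a (h ha) b hb hab
      · exact (hc hs).2 a ha b (h hb) hab)
  refine ⟨A, hA.prop.1, hA.prop.2, ?_⟩
  intro p hp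
  by_contra hcon
  push Not at hcon
  have hpA : p ∉ A := fun hpA => hcon p hpA (hrefl p hp)
  have hmem : insert p A ∈ {A : Set X | A ⊆ D ∧ ∀ a ∈ A, ∀ b ∈ A, R a b → a = b} := by
    refine ⟨Set.insert_subset hp hA.prop.1, ?_⟩
    rintro a (rfl | ha) b (rfl | hb) h
    · rfl
    · exact absurd (hsymm _ _ h) (hcon b hb)
    · exact absurd h (hcon a ha)
    · exact hA.prop.2 a ha b hb h
  exact hpA (hA.le_of_ge hmem (Set.subset_insert p A) (Set.mem_insert p A))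

/-- uncountable sets contain families indexed by the countable ordinals -/
theorem exists_inj {X : Type} {A : Set X} (hA : ¬ A.Countable) :
    ∃ f : W → X, Function.Injective f ∧ ∀ ξ, f ξ ∈ A := by
  have h1 : ℵ_ 1 ≤ #A := by
    rw [← succ_aleph0]
    refine Order.succ_le_of_lt ?_
    rw [← not_le]
    exact fun h => hA (le_aleph0_iff_set_countable.1 h)
  have h2 : #W ≤ #A := by
    rw [mk_toType, card_ord]
    exact h1
  obtain ⟨e⟩ := h2
  exact ⟨fun ξ => (e ξ).1, fun x y h => e.injective (Subtype.ext h), fun ξ => (e ξ).2⟩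

theorem univ_uncountable : ¬ (Set.univ : Set W).Countable := by
  intro h
  have h1 := le_aleph0_iff_set_countable.2 h
  rw [mk_univ, mk_toType, card_ord] at h1
  exact absurd h1 (not_le.2 (aleph0_lt_aleph_one))

section

variable {J : Type} {g : J → W → W → Set (Rep J)} {π : Par} [LinearOrder J] [WellFoundedLT J]

/-- families of conditions indexed by the countable ordinals are before some stage -/
theorem exists_stage (hcof : ∀ S : Set J, #S ≤ ℵ_ 1 → ∃ b, ∀ s ∈ S, s < b)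
    (f : W → Cd g π) : ∃ j, ∀ ξ, (f ξ).1 ∈ Vd g π j := by
  obtain ⟨b, hb⟩ := hcof (⋃ ξ, st (f ξ).1) (by
    refine (mk_iUnion_le _).trans ?_
    have h1 : #W = ℵ_ 1 := by rw [mk_toType, card_ord]
    rw [h1]
    have h2 : (⨆ ξ, #(st (f ξ).1)) ≤ ℵ₀ := by
      refine ciSup_le' fun ξ => ?_
      exact (lt_aleph0_iff_set_finite.2 (st_finite (f ξ).1)).le
    calc ℵ_ 1 * ⨆ ξ, #(st (f ξ).1) ≤ ℵ_ 1 * ℵ₀ := by gcongr
      _ = ℵ_ 1 := mul_aleph0_eq (aleph0_le_aleph 1))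
  refine ⟨b, fun ξ => mem_of_ok (f ξ).2 fun a ha => ?_⟩
  cases a with
  | h v k x => trivial
  | c i α γ => exact hb i (Set.mem_iUnion.2 ⟨ξ, α, γ, ha⟩)

end

end Pool.Agent.Helper919.HM.Tgood

namespace Pool.Agent.Helper919.HM

open Cardinal Pool.Agent.Helper919.DQ

variable {J : Type} (g : J → W → W → Set (Rep J)) (π : Par) [LinearOrder J] [WellFoundedLT J]

open Tgood in
theorem job_anti : St_anti g π := by
  intro hcof hcc
  have hccc : CCC (Cd g π) := by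
    intro A hA
    by_contra hcon
    obtain ⟨f, hf, hfA⟩ := exists_inj hcon
    obtain ⟨j, hj⟩ := exists_stage hcof f
    obtain ⟨ξ, -, η, -, hlt, u, hu, h1, h2⟩ := hcc j Set.univ (fun ξ => (f ξ).1)
      univ_uncountable (fun ξ _ => hj ξ)
    exact hlt.ne (hf (hA _ (hfA ξ) _ (hfA η) ⟨⟨u, ok_of_mem hu⟩, h1, h2⟩))
  refine ⟨hccc, fun D => ?_⟩
  obtain ⟨A, hAD, hA, hmax⟩ := exists_max (fun a b : Cd g π => ∃ s, s ≤ a ∧ s ≤ b)
    (fun x y ⟨s, h1, h2⟩ => ⟨s, h2, h1⟩) D fun x _ => ⟨x, le_rfl, le_rfl⟩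
  exact ⟨A, hAD, hccc A hA, hmax⟩

open Tgood in
theorem job_good (hun : St_union) (hmono : St_mono) (hctb : St_ctb) : St_good g π := by
  intro j hcc S r hS hr
  by_contra hcon
  push Not at hcon
  obtain ⟨A, hAD, hA, hmax⟩ := exists_max
    (fun a b : Rep J => ∃ u ∈ Vd g π j, a ⊆ u ∧ b ⊆ u)
    (fun x y ⟨s, h0, h1, h2⟩ => ⟨s, h0, h2, h1⟩)
    {r' | r' ∈ Vd g π j ∧ NS {ξ ∈ S | ∃ u ∈ Vd g π j, r' ⊆ u ∧ r ξ ⊆ u}}
    fun x hx => ⟨x, hx.1, Finset.Subset.refl _, Finset.Subset.refl _⟩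
  have hAc : A.Countable := by
    by_contra hc
    obtain ⟨f, hf, hfA⟩ := exists_inj hc
    obtain ⟨ξ, -, η, -, hlt, u, hu, h1, h2⟩ := hcc Set.univ f
      univ_uncountable (fun ξ _ => (hAD (hfA ξ)).1)
    exact hlt.ne (hf (hA _ (hfA ξ) _ (hfA η) ⟨u, hu, h1, h2⟩))
  have hall : ∀ ξ ∈ S, ∃ a ∈ A, ∃ u ∈ Vd g π j, a ⊆ u ∧ r ξ ⊆ u := by
    intro ξ hξ
    obtain ⟨r', hr', hsub, hns⟩ := hcon (r ξ) (hr ξ hξ)
    obtain ⟨a, ha, u, hu, h1, h2⟩ := hmax r' ⟨hr', hns⟩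
    exact ⟨a, ha, u, hu, h1, hsub.trans h2⟩
  have hne : A.Nonempty := by
    by_contra hc
    rw [Set.not_nonempty_iff_eq_empty] at hc
    refine hS (hctb S ?_)
    have : S = ∅ := by
      ext ξ
      simp only [Set.mem_empty_iff_false, iff_false]
      intro hξ
      obtain ⟨a, ha, -⟩ := hall ξ hξ
      rw [hc] at ha
      exact ha
    rw [this]
    exact Set.countable_empty
  obtain ⟨e, he⟩ := hAc.exists_eq_range hne
  refine hS (hmono _ S (hun (fun n => {ξ ∈ S | ∃ u ∈ Vd g π j, e n ⊆ u ∧ r ξ ⊆ u}) fun n => ?_) ?_)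
  · have : e n ∈ A := by rw [he]; exact ⟨n, rfl⟩
    exact (hAD this).2
  · intro ξ hξ
    obtain ⟨a, ha, u, hu, h1, h2⟩ := hall ξ hξ
    rw [he] at ha
    obtain ⟨n, rfl⟩ := ha
    exact Set.mem_iUnion.2 ⟨n, hξ, u, hu, h1, h2⟩

end Pool.Agent.Helper919.HM
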