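import Pool.Agent.Helper919_HM.Stmts

set_option autoImplicit false

/-! # Nonstationary sets -/

namespace Pool.Agent.Helper919.HM

open Cardinal Pool.Agent.Helper919.DQ

namespace Tns

theorem countable_Iio (x : W) : (Set.Iio x).Countable := by
  rw [← Cardinal.le_aleph0_iff_set_countable, ← Order.lt_succ_iff, Cardinal.succ_aleph0]
  exact Cardinal.mk_Iio_toType_ord_lt x

theorem countable_Iic (x : W) : (Set.Iic x).Countable := by
  rw [← Set.Iio_insert]
  exact (countable_Iio x).insert x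

/-- a countable set has a strict upper bound -/
theorem exists_gt_countable {S : Set W} (hS : S.Countable) : ∃ b : W, ∀ s ∈ S, s < b := by
  by_contra hcon
  push Not at hcon
  apply not_countable_W
  rw [← Set.countable_univ_iff]
  refine (hS.biUnion fun s _ => countable_Iic s).mono fun b _ => ?_
  obtain ⟨s, hs, h⟩ := hcon b
  simp only [Set.mem_iUnion]
  exact ⟨s, hs, h⟩

instance : Nonempty W := by
  by_contra h
  rw [not_nonempty_iff] at h
  exact not_countable_W inferInstance

theorem exists_gt' (x : W) : ∃ b, x < b := by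
  obtain ⟨b, hb⟩ := exists_gt_countable (Set.countable_singleton x)
  exact ⟨b, hb x rfl⟩

instance : NoMaxOrder W := ⟨exists_gt'⟩

/-- a set without strict upper bound is uncountable, and conversely an uncountable set has members
above every point -/
theorem exists_mem_gt {S : Set W} (hS : ¬ S.Countable) (x : W) : ∃ s ∈ S, x < s := by
  by_contra hcon
  push Not at hcon
  exact hS ((countable_Iic x).mono fun s hs => hcon s hs)

theorem exists_lt_of_limit {ξ : W} (h : Order.IsSuccLimit ξ) : ∃ x, x < ξ := by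
  have := h.1
  rw [not_isMin_iff] at this
  exact this

/-- a point closed under a function above a given point -/
theorem exists_clo (f : W → W) (a : W) : ∃ ξ, a < ξ ∧ Clo f ξ := by
  have hstep : ∀ x : W, ∃ b, x < b ∧ ∀ y ≤ x, f y < b := by
    intro x
    obtain ⟨b, hb⟩ := exists_gt_countable (((countable_Iic x).image f).insert x)
    exact ⟨b, hb x (Set.mem_insert _ _), fun y hy =>
      hb _ (Set.mem_insert_of_mem _ ⟨y, hy, rfl⟩)⟩
  choose s hs1 hs2 using hstep
  let u : ℕ → W := fun n => s^[n] a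
  have hu : ∀ n, u (n + 1) = s (u n) := fun n => Function.iterate_succ_apply' s n a
  have hlt : ∀ n, u n < u (n + 1) := fun n => by rw [hu]; exact hs1 _
  obtain ⟨b, hb⟩ := exists_gt_countable (Set.countable_range u)
  have hne : {b : W | ∀ n, u n < b}.Nonempty := ⟨b, fun n => hb _ ⟨n, rfl⟩⟩
  set ξ := WellFounded.min (wellFounded_lt (α := W)) {b : W | ∀ n, u n < b} hne with hξ
  have h1 : ∀ n, u n < ξ := WellFounded.min_mem (wellFounded_lt (α := W)) _ hne
  have h2 : ∀ x < ξ, ∃ n, x ≤ u n := by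
    intro x hx
    by_contra hcon
    push Not at hcon
    have hx' : x ∈ {b : W | ∀ n, u n < b} := hcon
    exact WellFounded.not_lt_min (wellFounded_lt (α := W)) _ hx' hx
  refine ⟨ξ, h1 0, ⟨⟨?_, ?_⟩, ?_⟩⟩
  · rw [not_isMin_iff]
    exact ⟨u 0, h1 0⟩
  · intro c hc
    obtain ⟨n, hn⟩ := h2 c hc.1
    exact hc.2 (lt_of_le_of_lt hn (hlt n)) (h1 (n + 1))
  · intro x hx
    obtain ⟨n, hn⟩ := h2 x hx
    have := hs2 (u n) x hn
    rw [← hu] at this
    exact this.trans (h1 (n + 1))

/-- closure points of many functions -/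
theorem exists_dom (F : W → W → W) : ∃ f : W → W, ∀ ξ, Clo f ξ → ∀ δ < ξ, Clo (F δ) ξ := by
  have h : ∀ x : W, ∃ b, ∀ y ≤ x, ∀ z ≤ x, F y z < b := by
    intro x
    obtain ⟨b, hb⟩ := exists_gt_countable
      (((countable_Iic x).prod (countable_Iic x)).image fun p => F p.1 p.2)
    exact ⟨b, fun y hy z hz => hb _ ⟨(y, z), ⟨hy, hz⟩, rfl⟩⟩
  choose f hf using h
  refine ⟨f, fun ξ hξ δ hδ => ⟨hξ.1, fun x hx => ?_⟩⟩
  exact (hf (max δ x) δ (le_max_left _ _) x (le_max_right _ _)).trans (hξ.2 _ (max_lt hδ hx))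

end Tns

open Tns

theorem job_mono : St_mono := fun _ _ ⟨f, hf⟩ h => ⟨f, fun ξ hξ => hf ξ (h hξ)⟩

theorem job_union : St_union := by
  intro S hS
  choose f hf using hS
  have h : ∀ x : W, ∃ b, ∀ n, f n x < b := by
    intro x
    obtain ⟨b, hb⟩ := exists_gt_countable (Set.countable_range fun n => f n x)
    exact ⟨b, fun n => hb _ ⟨n, rfl⟩⟩
  choose F hF using h
  refine ⟨F, fun ξ hξ hc => ?_⟩
  rw [Set.mem_iUnion] at hξ
  obtain ⟨n, hn⟩ := hξ
  exact hf n ξ hn ⟨hc.1, fun x hx => (hF x n).trans (hc.2 x hx)⟩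

theorem job_diag : St_diag := by
  intro N hN
  choose F hF using hN
  obtain ⟨f, hf⟩ := exists_dom F
  refine ⟨f, fun ξ hξ hc => ?_⟩
  obtain ⟨δ, hδ, h⟩ := hξ
  exact hF δ ξ h (hf ξ hc δ hδ)

theorem job_ctb : St_ctb := by
  intro S hS
  obtain ⟨b, hb⟩ := exists_gt_countable hS
  refine ⟨fun _ => b, fun ξ hξ hc => ?_⟩
  obtain ⟨x, hx⟩ := exists_lt_of_limit hc.1
  exact lt_asymm (hc.2 x hx) (hb ξ hξ)

theorem job_nlim : St_nlim := ⟨id, fun _ hξ hc => hξ hc.1⟩

theorem job_univ : St_univ := by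
  rintro ⟨f, hf⟩
  obtain ⟨ξ, _, hξ⟩ := exists_clo f (Classical.arbitrary W)
  exact hf ξ trivial hξ

end Pool.Agent.Helper919.HM
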