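import Pool.Agent.Helper919_HM.Stmts

set_option autoImplicit false

/-! # Fibres, pressing down, roots, and a regressive function -/

namespace Pool.Agent.Helper919.HM

open Cardinal Pool.Agent.Helper919.DQ

namespace Tns2

theorem countable_Iio (x : W) : (Set.Iio x).Countable := by
  rw [Cardinal.countable_iff_lt_aleph_one]
  exact Cardinal.mk_Iio_ord_toType x

theorem countable_Iic (x : W) : (Set.Iic x).Countable := by
  rw [← Set.Iio_insert]
  exact (countable_Iio x).insert x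

theorem exists_gt {S : Set W} (hS : S.Countable) : ∃ b, ∀ s ∈ S, s < b := by
  by_contra hcon
  push Not at hcon
  apply not_countable_W
  rw [← Set.countable_univ_iff]
  refine (hS.biUnion fun s _ => countable_Iic s).mono fun b _ => ?_
  obtain ⟨s, hs, h⟩ := hcon b
  exact Set.mem_biUnion hs h

theorem ns_empty : NS (∅ : Set W) := ⟨id, fun ξ h => h.elim⟩

theorem ns_union (h1 : St_union) {A B : Set W} (hA : NS A) (hB : NS B) : NS (A ∪ B) := by
  have h := h1 (fun n => if n = 0 then A else B) fun n => by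
    by_cases hn : n = 0
    · simpa only [if_pos hn] using hA
    · simpa only [if_neg hn] using hB
  have e : (⋃ n : ℕ, if n = 0 then A else B) = A ∪ B := by
    ext x
    simp only [Set.mem_iUnion, Set.mem_union]
    constructor
    · rintro ⟨n, hn⟩
      by_cases h0 : n = 0
      · rw [if_pos h0] at hn
        exact Or.inl hn
      · rw [if_neg h0] at hn
        exact Or.inr hn
    · rintro (h | h)
      · exact ⟨0, by simpa using h⟩
      · exact ⟨1, by simpa using h⟩
  rwa [e] at h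

end Tns2

open Tns2

theorem job_fiber (h1 : St_mono) (h2 : St_union) : St_fiber := by
  intro S Z C f hS hC hf
  by_contra hcon
  push Not at hcon
  rcases C.eq_empty_or_nonempty with hCe | hCn
  · apply hS
    have : S = ∅ := by
      ext ξ
      refine ⟨fun h => ?_, fun h => h.elim⟩
      have := hf ξ h
      rw [hCe] at this
      exact this.elim
    rw [this]
    exact ns_empty
  · obtain ⟨e, he⟩ := hC.exists_eq_range hCn
    apply hS
    refine h1 _ _ (h2 (fun n => {ξ ∈ S | f ξ = e n}) fun n => hcon (e n) ?_) ?_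
    · rw [he]
      exact ⟨n, rfl⟩
    · intro ξ hξ
      have h3 := hf ξ hξ
      rw [he] at h3
      obtain ⟨n, hn⟩ := h3
      exact Set.mem_iUnion.2 ⟨n, hξ, hn.symm⟩

theorem job_fodor (h1 : St_mono) (h2 : St_union) (h3 : St_diag) (h4 : St_nlim) : St_fodor := by
  intro S V hS hV
  by_contra hcon
  push Not at hcon
  have hN : ∀ δ : W, NS {ξ ∈ S | ∀ x ∈ V ξ, x ≤ δ} := by
    intro δ
    by_contra hδ
    obtain ⟨F, -, hF⟩ := job_fiber h1 h2 _ (Finset W) {F | (F : Set W) ⊆ Set.Iic δ} V hδ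
      (by
        have h := Set.countable_ofPred_finite_subset (countable_Iic δ)
        refine (h.preimage Finset.coe_injective).mono fun F hF => ?_
        exact ⟨F.finite_toSet, hF⟩) (fun ξ hξ x hx => hξ.2 x hx)
    exact hF (h1 _ _ (hcon F) fun ξ hξ => ⟨hξ.1.1, hξ.2⟩)
  apply hS
  refine h1 _ _ (ns_union h2 (h3 _ hN) h4) fun ξ hξ => ?_
  by_cases hl : Order.IsSuccLimit ξ
  · left
    rcases (V ξ).eq_empty_or_nonempty with he | hne
    · obtain ⟨δ, hδ⟩ := not_isMin_iff.1 hl.1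
      exact ⟨δ, hδ, hξ, fun x hx => by rw [he] at hx; exact absurd hx (Finset.notMem_empty x)⟩
    · exact ⟨(V ξ).max' hne, hV ξ hξ _ ((V ξ).max'_mem hne), hξ,
        fun x hx => (V ξ).le_max' x hx⟩
  · right
    exact hl

theorem job_root (h1 : St_mono) (h2 : St_union) : St_root := by
  classical
  intro X F S hS
  obtain ⟨n, -, hn⟩ := job_fiber h1 h2 S ℕ Set.univ (fun ξ => (F ξ).card) hS
    (Set.to_countable _) (fun _ _ => Set.mem_univ _)
  set S1 := {ξ ∈ S | (F ξ).card = n} with hS1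
  have key : ∀ m : ℕ, ∀ R : Finset X, n ≤ R.card + m → ¬ NS {ξ ∈ S1 | R ⊆ F ξ} →
      ∃ R' : Finset X, ¬ NS {ξ ∈ S1 | R' ⊆ F ξ} ∧
        ∀ x ∉ R', NS {ξ | ξ ∈ {ξ ∈ S1 | R' ⊆ F ξ} ∧ x ∈ F ξ} := by
    intro m
    induction m with
    | zero =>
      intro R hR hRN
      refine ⟨R, hRN, fun x hx => ?_⟩
      have : {ξ | ξ ∈ {ξ ∈ S1 | R ⊆ F ξ} ∧ x ∈ F ξ} = ∅ := by
        ext ξ
        refine ⟨fun h => ?_, fun h => h.elim⟩
        obtain ⟨⟨⟨-, h5⟩, h6⟩, h7⟩ := h
        have h8 : (insert x R).card ≤ (F ξ).card :=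
          Finset.card_le_card (Finset.insert_subset h7 h6)
        rw [Finset.card_insert_of_notMem hx, h5] at h8
        omega
      rw [this]
      exact ns_empty
    | succ m ih =>
      intro R hR hRN
      by_cases hall : ∀ x ∉ R, NS {ξ | ξ ∈ {ξ ∈ S1 | R ⊆ F ξ} ∧ x ∈ F ξ}
      · exact ⟨R, hRN, hall⟩
      · push Not at hall
        obtain ⟨x, hx, hxN⟩ := hall
        refine ih (insert x R) (by rw [Finset.card_insert_of_notMem hx]; omega) fun h => hxN ?_
        exact h1 _ _ h fun ξ hξ => ⟨hξ.1.1, Finset.insert_subset hξ.2 hξ.1.2⟩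
  obtain ⟨R, hR1, hR2⟩ := key n ∅ (by simp) (fun h => hn (h1 _ _ h fun ξ hξ =>
    ⟨hξ, Finset.empty_subset _⟩))
  exact ⟨R, {ξ ∈ S1 | R ⊆ F ξ}, fun ξ hξ => hξ.1.1, hR1, fun ξ hξ => hξ.2, hR2⟩

theorem job_rho (h1 : St_mono) (h2 : St_union) (h4 : St_ctb) (h5 : St_nlim) (h6 : St_univ) :
    St_rho := by
  have hex : ∀ ξ : W, ∃ e : ℕ → W, Order.IsSuccLimit ξ →
      (∀ n, e n < ξ) ∧ ∀ x < ξ, ∃ n, e n = x := by
    intro ξ
    by_cases hl : Order.IsSuccLimit ξ
    · obtain ⟨δ, hδ⟩ := not_isMin_iff.1 hl.1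
      obtain ⟨e, he⟩ := (countable_Iio ξ).exists_eq_range ⟨δ, hδ⟩
      refine ⟨e, fun _ => ⟨fun n => ?_, fun x hx => ?_⟩⟩
      · have : e n ∈ Set.Iio ξ := by
          rw [he]
          exact ⟨n, rfl⟩
        exact this
      · have : x ∈ Set.range e := by
          rw [← he]
          exact hx
        exact this
    · exact ⟨fun _ => ξ, fun h => absurd h hl⟩
  choose e he using hex
  by_contra hcon
  unfold St_rho at hcon
  push Not at hcon
  have hn : ∀ n : ℕ, ∃ γ, NS {ξ | Order.IsSuccLimit ξ ∧ γ ≤ e ξ n} := fun n =>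
    hcon (fun ξ => e ξ n) fun ξ hξ => (he ξ hξ).1 n
  choose γ hγ using hn
  obtain ⟨b, hb⟩ := exists_gt (Set.countable_range γ)
  apply h6
  refine h1 _ _ (ns_union h2 (ns_union h2 (h2 _ hγ) (h4 _ (countable_Iic b))) h5)
    fun ξ _ => ?_
  by_cases hl : Order.IsSuccLimit ξ
  · left
    by_cases hξ : ξ ≤ b
    · exact Or.inr hξ
    · left
      obtain ⟨n, hn⟩ := (he ξ hl).2 b (lt_of_not_ge hξ)
      refine Set.mem_iUnion.2 ⟨n, hl, ?_⟩
      rw [hn]
      exact (hb _ ⟨n, rfl⟩).le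
  · exact Or.inr hl

end Pool.Agent.Helper919.HM
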