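import Pool.Agent.Helper919_HM.Stmts

set_option autoImplicit false
set_option linter.unusedSectionVars false
set_option linter.unusedVariables false

/-! # Deciding neighbourhoods and the two amalgamations -/

namespace Pool.Agent.Helper919.HM.Tpair

open Cardinal Pool.Agent.Helper919.DQ Pool.Agent.Helper919.HM

variable {J : Type} {g : J → W → W → Set (Rep J)} {π : Par} [LinearOrder J] [WellFoundedLT J]

theorem job_dec : St_dec g π := by
  classical
  intro i hok A
  induction A using Finset.induction_on with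
  | empty =>
    intro ζ _ p hp
    exact ⟨p, hp, Finset.Subset.refl _, ∅, by simp, by simp⟩
  | insert α A hα ih =>
    intro ζ hζ p hp
    obtain ⟨p1, hp1, hpp1, B1, hB1, hne1⟩ := ih ζ
      (fun α' hα' => hζ α' (Finset.mem_insert_of_mem hα')) p hp
    obtain ⟨p2, hp2, hp12, B2, hB2⟩ := hok α ζ (hζ α (Finset.mem_insert_self _ _)) p1 hp1
    refine ⟨p2, hp2, hpp1.trans hp12, B1 ∪ B2.filter (fun x => x < ζ), ?_, ?_⟩
    · intro x hx
      rcases Finset.mem_union.1 hx with hx | hx
      · exact hB1 x hx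
      · exact (Finset.mem_filter.1 hx).2
    · intro α' hα' x hx hxB
      rw [Finset.mem_union, not_or] at hxB
      rcases Finset.mem_insert.1 hα' with rfl | hα'
      · intro u hu hpu e he
        refine hB2 x hx (fun hm => hxB.2 (Finset.mem_filter.2 ⟨hm, hx⟩)) u hu ?_ e he
        intro a ha
        exact hpu a ha (((mem_Vd g π).1 hp2).2.1 a ha)
      · exact (hne1 α' hα' x hx hxB.1).mono fun a ha _ => hp12 ha

/-- the least unused index -/
theorem exists_index (q : Rep J) (η : W) : ∃ k, (∀ x, Atom.h η k x ∉ q) ∧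
    ∀ l < k, ∃ x, Atom.h η l x ∈ q := by
  classical
  have hex : ∃ k, ∀ x, Atom.h η k x ∉ q := by
    by_contra hcon
    push Not at hcon
    choose f hf using hcon
    have hinj : Function.Injective fun k => (Atom.h η k (f k) : Atom J) := by
      intro a b hab
      exact (Atom.h.inj hab).2.1
    have h1 : (Set.range fun k => (Atom.h η k (f k) : Atom J)).Infinite :=
      Set.infinite_range_of_injective hinj
    refine h1 (q.finite_toSet.subset ?_)
    rintro _ ⟨k, rfl⟩
    exact hf k
  refine ⟨Nat.find hex, Nat.find_spec hex, fun l hl => ?_⟩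
  have := Nat.find_min hex hl
  push Not at this
  exact this

theorem job_pair0 : St_pair0 g π := by
  classical
  intro j p q E E' ξ η hp hq hst hξη hlim hpv hqv hE' hc hη
  have hpo := ok_of_mem hp
  have hqo := ok_of_mem hq
  have hpb := ((mem_Vd g π).1 hp).2.1
  have hqb := ((mem_Vd g π).1 hq).2.1
  obtain ⟨k, hk1, hk2⟩ := exists_index q η
  let w : Rep J := insert (Atom.h η k ξ) (p ∪ q)
  have hpw : p ⊆ w := fun a ha => Finset.mem_insert_of_mem (Finset.mem_union_left _ ha)
  have hqw : q ⊆ w := fun a ha => Finset.mem_insert_of_mem (Finset.mem_union_right _ ha)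
  have hmem : ∀ a, a ∈ w → a = Atom.h η k ξ ∨ a ∈ p ∨ a ∈ q := by
    intro a ha
    rcases Finset.mem_insert.1 ha with ha | ha
    · exact Or.inl ha
    · exact Or.inr (Finset.mem_union.1 ha)
  -- colour atoms
  have hcol : ∀ i α γ, Atom.c i α γ ∈ w → Atom.c i α γ ∈ p ∨ Atom.c i α γ ∈ q := by
    intro i α γ ha
    rcases hmem _ ha with h | h
    · cases h
    · exact h
  have hdis : ∀ i α γ α' γ', Atom.c i α γ ∈ p → Atom.c i α' γ' ∈ q → False := by
    intro i α γ α' γ' ha hb
    exact Set.disjoint_left.1 hst ⟨α, γ, ha⟩ ⟨α', γ', hb⟩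
  -- atoms at η
  have hηw : ∀ l y, Atom.h η l y ∈ w → (l = k ∧ y = ξ) ∨ Atom.h η l y ∈ q := by
    intro l y ha
    rcases hmem _ ha with h | h | h
    · obtain ⟨_, h2, h3⟩ := Atom.h.inj h
      exact Or.inl ⟨h2, h3⟩
    · exact absurd (hpv _ _ _ h).1 (lt_irrefl _)
    · exact Or.inr h
  -- atoms elsewhere
  have hvw : ∀ v, v ≠ η → (∀ l y, Atom.h v l y ∈ w → Atom.h v l y ∈ p) ∨
      ∀ l y, Atom.h v l y ∈ w → Atom.h v l y ∈ q := by
    intro v hv
    by_cases hex : ∃ l y, Atom.h v l y ∈ p
    · obtain ⟨l0, y0, h0⟩ := hex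
      left
      intro l y ha
      rcases hmem _ ha with h | h | h
      · exact absurd (Atom.h.inj h).1 hv
      · exact h
      · have h1 := hpv _ _ _ h0
        have h2 := hqv _ _ _ h h1.1
        have h3 := h1.2 (hE' _ h2)
        exact (hc v h3 h2 l y).2 h
    · right
      intro l y ha
      rcases hmem _ ha with h | h | h
      · exact absurd (Atom.h.inj h).1 hv
      · exact absurd ⟨l, y, h⟩ hex
      · exact h
  have hH : HBase w := by
    refine ⟨fun v k' x y hx hy => ?_, fun v k' l x y hx hy hkl => ?_,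
      fun v k' l y hy hkl => ?_, fun v k' x hx => ?_⟩
    · by_cases hv : v = η
      · subst hv
        rcases hηw _ _ hx with ⟨h1, h2⟩ | h1 <;> rcases hηw _ _ hy with ⟨h3, h4⟩ | h3
        · rw [h2, h4]
        · exact absurd (h1 ▸ h3) (hk1 _)
        · exact absurd (h3 ▸ h1) (hk1 _)
        · exact hqo.1.1 _ _ _ _ h1 h3
      · rcases hvw v hv with h | h
        · exact hpo.1.1 _ _ _ _ (h _ _ hx) (h _ _ hy)
        · exact hqo.1.1 _ _ _ _ (h _ _ hx) (h _ _ hy)
    · by_cases hv : v = η
      · subst hv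
        rcases hηw _ _ hx with ⟨h1, h2⟩ | h1 <;> rcases hηw _ _ hy with ⟨h3, h4⟩ | h3
        · omega
        · subst h1
          obtain ⟨z, hz⟩ := hqo.1.2.2.1 _ _ _ _ h3 hkl
          exact absurd hz (hk1 _)
        · rw [h4]
          exact hη _ _ h1
        · exact hqo.1.2.1 _ _ _ _ _ h1 h3 hkl
      · rcases hvw v hv with h | h
        · exact hpo.1.2.1 _ _ _ _ _ (h _ _ hx) (h _ _ hy) hkl
        · exact hqo.1.2.1 _ _ _ _ _ (h _ _ hx) (h _ _ hy) hkl
    · by_cases hv : v = η
      · subst hv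
        rcases hηw _ _ hy with ⟨h3, h4⟩ | h3
        · subst h3
          obtain ⟨z, hz⟩ := hk2 k' hkl
          exact ⟨z, hqw hz⟩
        · obtain ⟨z, hz⟩ := hqo.1.2.2.1 _ _ _ _ h3 hkl
          exact ⟨z, hqw hz⟩
      · rcases hvw v hv with h | h
        · obtain ⟨z, hz⟩ := hpo.1.2.2.1 _ _ _ _ (h _ _ hy) hkl
          exact ⟨z, hpw hz⟩
        · obtain ⟨z, hz⟩ := hqo.1.2.2.1 _ _ _ _ (h _ _ hy) hkl
          exact ⟨z, hqw hz⟩
    · rcases hmem _ hx with h | h | h
      · obtain ⟨h1, _, h3⟩ := Atom.h.inj h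
        subst h1; subst h3
        exact ⟨hξη, hlim⟩
      · exact hpo.1.2.2.2 _ _ _ h
      · exact hqo.1.2.2.2 _ _ _ h
  have hok : Ok g π w := by
    refine ok_of_parts hH (fun i α γ γ' ha hb => ?_) (fun i α γ ha => ?_)
      fun i α α' γ hlt ha hb => ?_
    · rcases hcol _ _ _ ha with h | h <;> rcases hcol _ _ _ hb with h' | h'
      · exact (hpo.2 i).1.1 α γ γ' h h'
      · exact (hdis _ _ _ _ _ h h').elim
      · exact (hdis _ _ _ _ _ h' h).elim
      · exact (hqo.2 i).1.1 α γ γ' h h'
    · rcases hcol _ _ _ ha with h | h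
      · exact ⟨p, hpo, h⟩
      · exact ⟨q, hqo, h⟩
    · rcases hcol _ _ _ ha with h | h <;> rcases hcol _ _ _ hb with h' | h'
      · exact ne_of_ok hpo hpw hlt h h'
      · exact (hdis _ _ _ _ _ h h').elim
      · exact (hdis _ _ _ _ _ h' h).elim
      · exact ne_of_ok hqo hqw hlt h h'
  refine ⟨w, mem_of_ok hok fun a ha => ?_, hpw, hqw, k, Finset.mem_insert_self _ _⟩
  rcases hmem _ ha with h | h | h
  · rw [h]; trivial
  · exact hpb _ h
  · exact hqb _ h

theorem job_pair1 : St_pair1 g π := by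
  classical
  intro i j p q u E E' ξ η hij hp hq hu hpu hqu hst hξη hpi hqi hE hE' h1 h2 h3 h4 h5 h6
  have hpo := ok_of_mem hp
  have hqo := ok_of_mem hq
  have huo := ok_of_mem hu
  have hpb := ((mem_Vd g π).1 hp).2.1
  have hqb := ((mem_Vd g π).1 hq).2.1
  have hub := ((mem_Vd g π).1 hu).2.1
  let w : Rep J := u ∪ p ∪ q
  have huw : u ⊆ w := fun a ha => Finset.mem_union_left _ (Finset.mem_union_left _ ha)
  have hpw : p ⊆ w := fun a ha => Finset.mem_union_left _ (Finset.mem_union_right _ ha)
  have hqw : q ⊆ w := fun a ha => Finset.mem_union_right _ ha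
  have hmem : ∀ a, a ∈ w → a ∈ u ∨ a ∈ p ∨ a ∈ q := by
    intro a ha
    rcases Finset.mem_union.1 ha with ha | ha
    · rcases Finset.mem_union.1 ha with ha | ha
      · exact Or.inl ha
      · exact Or.inr (Or.inl ha)
    · exact Or.inr (Or.inr ha)
  have hbel : ∀ a, a ∈ w → a.Bel i → a ∈ u := by
    intro a ha hb
    rcases hmem _ ha with h | h | h
    · exact h
    · exact hpu _ h hb
    · exact hqu _ h hb
  have hnbel : ∀ a, a ∈ w → ¬ a.Bel i → a ∈ p ∨ a ∈ q := by
    intro a ha hb
    rcases hmem _ ha with h | h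
    · exact absurd (hub _ h) hb
    · exact h
  -- for stages after `i`, everything comes from one side
  have hdis : ∀ i' α γ α' γ', i < i' → Atom.c i' α γ ∈ p → Atom.c i' α' γ' ∈ q → False := by
    intro i' α γ α' γ' hi ha hb
    exact absurd (hst i' ⟨α, γ, ha⟩ ⟨α', γ', hb⟩) (not_le.2 hi)
  -- at stage `i`, colours in both are in the common part
  have hκ : ∀ α α' κ, Atom.c i α κ ∈ p → Atom.c i α' κ ∈ q → κ ∈ E ∧ κ ∈ E' := by
    intro α α' κ ha hb
    have ha' := hpi _ _ ha
    have h7 := (hqi _ _ hb).2 ha'.2.1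
    exact ⟨ha'.2.2.2 (hE' _ h7), h7⟩
  have hok : Ok g π w := by
    refine ok_of_parts (huo.1.of_iff fun v k x => ⟨fun hm => hbel _ hm trivial,
      fun hm => huw hm⟩) (fun i' α γ γ' ha hb => ?_) (fun i' α γ ha => ?_)
      fun i' α α' γ hlt ha hb => ?_
    · rcases lt_trichotomy i' i with hi | hi | hi
      · exact (huo.2 i').1.1 α γ γ' (hbel _ ha hi) (hbel _ hb hi)
      · subst hi
        have key : ∀ κ κ', Atom.c i' α κ ∈ p → Atom.c i' α κ' ∈ q → κ = κ' := by
          intro κ κ' h h'
          have h7 := hpi _ _ h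
          have h8 := (hqi _ _ h').1 h7.1
          have h9 := h7.2.2.1 (hE' _ h8)
          exact (hqo.2 i').1.1 α _ _ ((h5 α h9 h8 κ).1 h) h'
        rcases hnbel _ ha (lt_irrefl i') with h | h <;>
          rcases hnbel _ hb (lt_irrefl i') with h' | h'
        · exact (hpo.2 i').1.1 α γ γ' h h'
        · exact key _ _ h h'
        · exact (key _ _ h' h).symm
        · exact (hqo.2 i').1.1 α γ γ' h h'
      · rcases hnbel _ ha (not_lt.2 hi.le) with h | h <;>
          rcases hnbel _ hb (not_lt.2 hi.le) with h' | h'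
        · exact (hpo.2 i').1.1 α γ γ' h h'
        · exact (hdis _ _ _ _ _ hi h h').elim
        · exact (hdis _ _ _ _ _ hi h' h).elim
        · exact (hqo.2 i').1.1 α γ γ' h h'
    · rcases hmem _ ha with h | h | h
      · exact ⟨u, huo, h⟩
      · exact ⟨p, hpo, h⟩
      · exact ⟨q, hqo, h⟩
    · rcases lt_trichotomy i' i with hi | hi | hi
      · exact ne_of_ok huo huw hlt (hbel _ ha hi) (hbel _ hb hi)
      · subst hi
        have hz : ∀ {x y : W}, NE (g i') (Vd g π i') i' u x y →
            ∃ z, (∀ a ∈ z, a.Bel i' → a ∈ w) ∧ NE (g i') (Vd g π i') i' z x y :=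
          fun h => ⟨u, fun a ha _ => huw ha, h⟩
        rcases hnbel _ ha (lt_irrefl i') with h | h <;>
          rcases hnbel _ hb (lt_irrefl i') with h' | h'
        · exact ne_of_ok hpo hpw hlt h h'
        · -- `α` in `p`, `α'` in `q`
          obtain ⟨hκE, hκE'⟩ := hκ _ _ _ h h'
          have hα := hpi _ _ h
          have hαE' : α ∈ E' → ∃ z, (∀ a ∈ z, a.Bel i' → a ∈ w) ∧
              NE (g i') (Vd g π i') i' z α α' := by
            intro h8
            have h9 := hα.2.2.1 (hE' _ h8)
            exact ne_of_ok hqo hqw hlt ((h5 α h9 h8 γ).1 h) h'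
          by_cases hαE : α ∈ E'
          · exact hαE' hαE
          · rcases lt_trichotomy α' η with h7 | h7 | h7
            · have h8 := (hqi _ _ h').1 h7
              have h9 := hE' _ h8
              have h10 := hα.2.2.1 (hlt.trans h9)
              by_cases h11 : α' ∈ E
              · exact ne_of_ok hpo hpw hlt h ((h5 α' h11 h8 γ).2 h')
              · exact hz ((h6 α h10 hαE α' h8 h11 γ h h').1 hlt)
            · subst h7
              exact absurd hκE (h3 _ h')
            · exact hz (h2 _ _ h' h7 α hα.1 hαE)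
        · -- `α` in `q`, `α'` in `p`
          obtain ⟨hκE, hκE'⟩ := hκ _ _ _ h' h
          have hα' := hpi _ _ h'
          have h8 := (hqi _ _ h).1 (hlt.trans hα'.1)
          have h9 := hE' _ h8
          by_cases hαE : α ∈ E
          · exact ne_of_ok hpo hpw hlt ((h5 α hαE h8 γ).2 h) h'
          · rcases lt_trichotomy α' ξ with h7 | h7 | h7
            · have h10 := hα'.2.2.1 h7
              by_cases h11 : α' ∈ E'
              · exact ne_of_ok hqo hqw hlt h ((h5 α' h10 h11 γ).1 h')
              · exact hz ((h6 α' h10 h11 α h8 hαE γ h' h).2 hlt)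
            · subst h7
              exact absurd hκE' (h4 _ h')
            · exact hz (h1 _ _ h' h7 α h9 hαE)
        · exact ne_of_ok hqo hqw hlt h h'
      · rcases hnbel _ ha (not_lt.2 hi.le) with h | h <;>
          rcases hnbel _ hb (not_lt.2 hi.le) with h' | h'
        · exact ne_of_ok hpo hpw hlt h h'
        · exact (hdis _ _ _ _ _ hi h h').elim
        · exact (hdis _ _ _ _ _ hi h' h).elim
        · exact ne_of_ok hqo hqw hlt h h'
  refine ⟨w, mem_of_ok hok fun a ha => ?_, huw, hpw, hqw⟩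
  rcases hmem _ ha with h | h | h
  · exact (hub _ h).mono hij.le
  · exact hpb _ h
  · exact hqb _ h

end Pool.Agent.Helper919.HM.Tpair
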