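import Pool.Agent.Helper919_HM.Stmts

set_option autoImplicit false
set_option linter.unusedSectionVars false

/-! # Every graph with small neighbourhoods has a regressive colouring -/

namespace Pool.Agent.Helper919.HM

open Cardinal Pool.Agent.Helper919.DQ

namespace Treg

variable {J : Type} {g : J → W → W → Set (Rep J)} {π : Par} [LinearOrder J] [WellFoundedLT J]

/-- at most `ℵ₁` conditions are contained in a stage -/
theorem exists_below (hcof : ∀ S : Set J, #S ≤ ℵ_ 1 → ∃ b, ∀ s ∈ S, s < b)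
    {A : Set (Cd g π)} (hA : #A ≤ ℵ_ 1) : ∃ j : J, ∀ a ∈ A, ∀ x ∈ a.1, x.Bel j := by
  classical
  obtain ⟨b, hb⟩ := hcof (⋃ a : A, st a.1.1) (by
    refine (mk_iUnion_le_sum_mk).trans ?_
    refine (Cardinal.sum_le_sum _ (fun _ => ℵ₀) fun a => ?_).trans ?_
    · exact Cardinal.le_aleph0_iff_set_countable.2 (st_finite _).countable
    · rw [Cardinal.sum_const']
      exact (mul_le_mul' hA (aleph0_le_aleph 1)).trans (mul_eq_self (aleph0_le_aleph 1)).le)
  refine ⟨b, fun a ha x hx => ?_⟩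
  cases x with
  | h => trivial
  | c i α γ => exact hb i (Set.mem_iUnion.2 ⟨⟨a, ha⟩, α, γ, hx⟩)

/-- infinitely many colours are allowed at every vertex -/
theorem infinite_al (hρ : ∀ ξ, Order.IsSuccLimit ξ → π.ρ ξ < ξ) (hw : (Set.Iio π.w0).Infinite)
    (α : W) : {γ | Al π α γ}.Infinite := by
  by_cases hα : Order.IsSuccLimit α
  · intro hfin
    have hmem : π.ρ α ∈ {γ | Al π α γ} := ⟨fun _ => ⟨le_rfl, hρ α hα⟩, fun h => absurd hα h⟩
    obtain ⟨m, hm⟩ := hfin.exists_maximal ⟨_, hmem⟩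
    have h1 := hm.1.1 hα
    have h2 : ¬ m ⋖ α := hα.2 m
    have h3 : ∃ c, m < c ∧ c < α := by
      by_contra hcon
      push Not at hcon
      exact h2 ⟨h1.2, fun c hc hc' => not_lt.2 (hcon c hc) hc'⟩
    obtain ⟨c, hc1, hc2⟩ := h3
    have hc : c ∈ {γ | Al π α γ} := ⟨fun _ => ⟨h1.1.trans hc1.le, hc2⟩, fun h => absurd hα h⟩
    exact not_le.2 hc1 (hm.2 hc hc1.le)
  · refine hw.mono fun γ hγ => ?_
    exact ⟨fun h => absurd h hα, fun _ => hγ⟩

/-- adding a colour -/
theorem add_c (hρ : ∀ ξ, Order.IsSuccLimit ξ → π.ρ ξ < ξ) (hw : (Set.Iio π.w0).Infinite)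
    {j : J} (hok : OKn (g j) (Vd g π j)) (p : Cd g π) (α : W) :
    ∃ r ≤ p, ∃ γ, Atom.c j α γ ∈ r.1 := by
  classical
  by_cases h : ∃ γ, Atom.c j α γ ∈ p.1
  · exact ⟨p, le_rfl, h⟩
  · push Not at h
    obtain ⟨γ, hγ, hγ'⟩ := (infinite_al hρ hw α).exists_notMem_finset (vs_finite p.1).toFinset
    have hfresh : ∀ i β, Atom.c i β γ ∉ p.1 := by
      intro i β hβ
      apply hγ'
      rw [Set.Finite.mem_toFinset]
      exact Or.inr (Or.inr (Or.inr ⟨i, β, hβ⟩))
    have hsing : Ok g π ({Atom.c j α γ} : Rep J) := by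
      refine ⟨⟨?_, ?_, ?_, ?_⟩, fun i => ⟨⟨?_, ?_⟩, ⟨?_, ?_⟩⟩⟩
      · intro v k x y hx
        simp at hx
      · intro v k l x y hx
        simp at hx
      · intro v k l y hx
        simp at hx
      · intro v k x hx
        simp at hx
      · intro β δ δ' h1 h2
        simp only [Finset.mem_singleton, Atom.c.injEq] at h1 h2
        rw [h1.2.2, h2.2.2]
      · intro β δ h1
        simp only [Finset.mem_singleton, Atom.c.injEq] at h1
        rw [h1.2.1, h1.2.2]
        exact hγ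
      · intro β δ h1
        simp only [Finset.mem_singleton, Atom.c.injEq] at h1
        rw [h1.1]
        exact hok
      · intro β β' δ hlt h1 h2
        simp only [Finset.mem_singleton, Atom.c.injEq] at h1 h2
        rw [h1.2.1, h2.2.1] at hlt
        exact absurd hlt (lt_irrefl _)
    have hw' : Ok g π (insert (Atom.c j α γ) p.1) := by
      refine ok_of_parts (p.2.1.of_iff fun v k x => ?_) ?_ ?_ ?_
      · simp
      · intro i β δ δ' h1 h2
        rw [Finset.mem_insert] at h1 h2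
        rcases h1 with h1 | h1 <;> rcases h2 with h2 | h2
        · simp only [Atom.c.injEq] at h1 h2
          rw [h1.2.2, h2.2.2]
        · simp only [Atom.c.injEq] at h1
          rw [h1.1, h1.2.1] at h2
          exact absurd h2 (h _)
        · simp only [Atom.c.injEq] at h2
          rw [h2.1, h2.2.1] at h1
          exact absurd h1 (h _)
        · exact (p.2.2 i).1.1 β δ δ' h1 h2
      · intro i β δ h1
        rw [Finset.mem_insert] at h1
        rcases h1 with h1 | h1
        · exact ⟨_, hsing, by rw [h1]; simp⟩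
        · exact ⟨_, p.2, h1⟩
      · intro i β β' δ hlt h1 h2
        rw [Finset.mem_insert] at h1 h2
        rcases h1 with h1 | h1 <;> rcases h2 with h2 | h2
        · simp only [Atom.c.injEq] at h1 h2
          rw [h1.2.1, h2.2.1] at hlt
          exact absurd hlt (lt_irrefl _)
        · simp only [Atom.c.injEq] at h1
          rw [h1.2.2] at h2
          exact absurd h2 (hfresh _ _)
        · simp only [Atom.c.injEq] at h2
          rw [h2.2.2] at h1
          exact absurd h1 (hfresh _ _)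
        · exact ne_of_ok p.2 (Finset.subset_insert _ _) hlt h1 h2
    let r : Cd g π := ⟨insert (Atom.c j α γ) p.1, hw'⟩
    refine ⟨r, Finset.subset_insert _ _, γ, Finset.mem_insert_self _ _⟩

/-- the name of the `j`-th colouring -/
def cn (g : J → W → W → Set (Rep J)) (π : Par) (j : J) (α γ : W) : Set (Cd g π) :=
  {p | Atom.c j α γ ∈ p.1}

theorem down_cn (j : J) (α γ : W) : Down (cn g π j α γ) := fun _ hp _ hq => hq hp

end Treg

open Treg

theorem job_reg {J : Type} (g : J → W → W → Set (Rep J)) (π : Par) [LinearOrder J]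
    [WellFoundedLT J] : St_reg g π := by
  classical
  intro hρ hw hcof hbook hanti G q hq
  choose A hA1 hA2 hA3 using fun x α : W => hanti {a | a ≤ q ∧ a ∈ meets (G x α)}
  obtain ⟨b, hb⟩ := exists_below (g := g) (π := π) hcof (A := ⋃ z : W × W, A z.1 z.2) (by
    refine (mk_iUnion_le_sum_mk).trans ?_
    refine (Cardinal.sum_le_sum _ (fun _ => ℵ₀) fun z => ?_).trans ?_
    · exact Cardinal.le_aleph0_iff_set_countable.2 (hA2 _ _)
    · rw [Cardinal.sum_const', mk_prod, Cardinal.lift_id, mk_W,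
        mul_eq_self (aleph0_le_aleph 1)]
      exact (mul_le_mul' le_rfl (aleph0_le_aleph 1)).trans (mul_eq_self (aleph0_le_aleph 1)).le)
  obtain ⟨j, hbj, hj⟩ := hbook (fun x α => (fun a : Cd g π => a.1) '' A x α)
    (fun x α => (hA2 x α).image _) b
  have hbel : ∀ x α, ∀ a ∈ A x α, ∀ y ∈ a.1, y.Bel j := fun x α a ha y hy =>
    (hb a (Set.mem_iUnion.2 ⟨(x, α), ha⟩) y hy).mono hbj
  -- the graph is locally small at the stage
  have hok : OKn (g j) (Vd g π j) := by
    intro α ζ hζ p hp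
    let p0 : Cd g π := ⟨p, ok_of_mem hp⟩
    by_cases hcomp : ∃ r : Cd g π, r ≤ p0 ∧ r ≤ q
    · obtain ⟨r, hr1, hr2⟩ := hcomp
      have h1 : r ∈ fnot (fand
          (fnot (fex fun B : Finset W => fall fun β => fall fun _ : β < α =>
            fimp (meets (G β α)) (fground (β ∈ B))))
          (fnot (fall fun ζ => fall fun _ : ζ < α =>
            fand (fex fun β => fand (fground (ζ ≤ β ∧ β < α)) (meets (G β α)))
              (fex fun B : Finset W => fall fun β => fall fun _ : β < ζ =>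
                fimp (meets (G β α)) (fground (β ∈ B)))))) := by
        have := down_fnot _ _ (hq α) r hr2
        exact this
      have h2 : ∃ r' ≤ r, ∃ B : Finset W, ∀ β < ζ, r' ∈ fimp (meets (G β α)) (fground (β ∈ B)) := by
        have h3 := h1 r le_rfl
        rw [mem_fand, not_and_or] at h3
        rcases h3 with h3 | h3
        · simp only [fnot, Set.mem_ofPred_eq, not_forall, not_not] at h3
          obtain ⟨r1, hr1, h4⟩ := h3
          obtain ⟨r2, hr2, B, h5⟩ := mem_fex.1 h4 r1 le_rfl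
          exact ⟨r2, hr2.trans hr1, B, fun β hβ => h5 β (hβ.trans hζ)⟩
        · simp only [fnot, Set.mem_ofPred_eq, not_forall, not_not] at h3
          obtain ⟨r1, hr1, h4⟩ := h3
          obtain ⟨r2, hr2, B, h5⟩ := mem_fex.1 (h4 ζ hζ).2 r1 le_rfl
          exact ⟨r2, hr2.trans hr1, B, fun β hβ => h5 β hβ⟩
      obtain ⟨r', hr', B, hB⟩ := h2
      refine ⟨res r'.1 j, res_mem r'.2 j, fun y hy => mem_res.2 ⟨hr' (hr1 hy),
        ((mem_Vd g π).1 hp).2.1 y hy⟩, B, fun x hx hxB u hu hpu e he heu => ?_⟩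
      rw [hj] at he
      obtain ⟨a, ha, rfl⟩ := he
      have hw' : Ok g π (u ∪ r'.1) := glue hu r'.2 fun y hy hyj => hpu (mem_res.2 ⟨hy, hyj⟩)
      let w : Cd g π := ⟨u ∪ r'.1, hw'⟩
      have hw1 : w ≤ r' := fun y hy => Finset.mem_union_right _ hy
      have hw2 : w ≤ a := fun y hy => Finset.mem_union_left _ (heu hy)
      obtain ⟨t, ht, ht'⟩ := mem_fimp.1 (hB x hx) w hw1 (down_meets _ _ (hA1 x α ha).2 w hw2)
      exact hxB ht'
    · refine ⟨p, hp, Finset.Subset.refl _, ∅, fun x hx _ u hu hpu e he heu => ?_⟩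
      rw [hj] at he
      obtain ⟨a, ha, rfl⟩ := he
      let w : Cd g π := ⟨u, ok_of_mem hu⟩
      exact hcomp ⟨w, hpu, fun y hy => heu ((hA1 x α ha).1 hy)⟩
  -- the colouring
  have hboth : ∀ (p : Cd g π) (α γ β δ : W), p ∈ meets (cn g π j α γ) → p ∈ meets (cn g π j β δ) →
      ∃ r ≤ p, Atom.c j α γ ∈ r.1 ∧ Atom.c j β δ ∈ r.1 := by
    intro p α γ β δ h1 h2
    obtain ⟨r1, hr1, h3⟩ := exists_of_meets (down_cn j α γ) h1
    obtain ⟨r2, hr2, h4⟩ := exists_of_meets (down_cn j β δ) (down_meets _ _ h2 r1 hr1)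
    exact ⟨r2, hr2.trans hr1, hr2 h3, h4⟩
  refine mem_fex_of_mem (cn g π j) ?_ ⟨⟨⟨?_, ?_⟩, ?_⟩, ?_⟩
  · refine down_fand (down_fand (down_fand (down_fall fun _ => down_fex _)
      (down_fall fun _ => down_fall fun _ => down_fall fun _ => down_fimp _ _))
      (down_fall fun _ => down_fall fun _ => down_fall fun _ => down_fimp _ _))
      (down_fall fun _ => down_fall fun _ => down_fall fun _ => down_fimp _ _)
  · intro α
    refine mem_fex.2 fun p _ => ?_
    obtain ⟨r, hr, γ, hγ⟩ := add_c hρ hw hok p α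
    exact ⟨r, hr, γ, meets_of_mem hγ⟩
  · intro α γ γ'
    refine mem_fimp.2 fun p _ hp => ?_
    obtain ⟨r, hr, h1, h2⟩ := hboth p _ _ _ _ hp.1 hp.2
    exact ⟨r, hr, (r.2.2 j).1.1 α γ γ' h1 h2⟩
  · intro α β hβ
    refine mem_fimp.2 fun p hp hG => ⟨p, le_rfl, fun x r hr hx => ?_⟩
    obtain ⟨r1, hr1, h1, h2⟩ := hboth r _ _ _ _ hx.1 hx.2
    obtain ⟨a, ha, s, hsa, hsr⟩ := hA3 β α r1
      ⟨hr1.trans (hr.trans hp), down_meets _ _ hG r1 (hr1.trans hr)⟩
    have h3 := (s.2.2 j).2.2 β α x hβ (hsr h1) (hsr h2)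
    refine h3 (res s.1 j) (res_mem s.2 j) (fun y hy hyj => mem_res.2 ⟨hy, hyj⟩) a.1 ?_
      fun y hy => mem_res.2 ⟨hsa hy, hbel β α a ha y hy⟩
    rw [hj]
    exact ⟨a, ha, rfl⟩
  · intro α hα γ
    refine mem_fimp.2 fun p _ hp => ?_
    obtain ⟨r, hr, h1⟩ := exists_of_meets (down_cn j α γ) hp
    exact ⟨r, hr, (((r.2.2 j).1.2 α γ h1).1 hα).2⟩

end Pool.Agent.Helper919.HM
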