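import Pool.Agent.Helper919_HM.Stmts

set_option autoImplicit false

/-! # Roots and spacing out for the ideal of countable sets -/

namespace Pool.Agent.Helper919.HM

open Cardinal Pool.Agent.Helper919.DQ

namespace Tspace

theorem countable_Iio (a : W) : (Set.Iio a).Countable := by
  rw [← Cardinal.le_aleph0_iff_set_countable, ← Order.lt_succ_iff, ← Cardinal.aleph_zero,
    ← Cardinal.aleph_succ]
  have h := Cardinal.mk_Iio_toType_ord_lt a
  rwa [show Order.succ (0 : Ordinal) = 1 from Ordinal.succ_zero]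

theorem countable_Iic (a : W) : (Set.Iic a).Countable := by
  have h : Set.Iic a ⊆ Set.Iio a ∪ {a} := by
    intro x hx
    rcases lt_or_eq_of_le (Set.mem_Iic.1 hx) with h | h
    · exact Or.inl h
    · exact Or.inr h
  exact ((countable_Iio a).union (Set.countable_singleton a)).mono h

theorem exists_gt_mem {M : Set W} (hM : ¬ M.Countable) (a : W) : ∃ m ∈ M, a < m := by
  by_contra hcon
  push Not at hcon
  exact hM ((countable_Iic a).mono hcon)

theorem exists_gt_W (a : W) : ∃ b : W, a < b := by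
  obtain ⟨m, _, hm⟩ := exists_gt_mem (M := Set.univ)
    (fun h => not_countable_W (Set.countable_univ_iff.1 h)) a
  exact ⟨m, hm⟩

theorem exists_ub {M : Set W} (hM : M.Countable) : ∃ b : W, ∀ m ∈ M, m ≤ b := by
  by_contra hcon
  push Not at hcon
  have h : (Set.univ : Set W) ⊆ ⋃ m ∈ M, Set.Iic m := by
    intro b _
    obtain ⟨m, hm, hb⟩ := hcon b
    simp only [Set.mem_iUnion, Set.mem_Iic]
    exact ⟨m, hm, hb.le⟩
  exact not_countable_W (Set.countable_univ_iff.1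
    ((hM.biUnion fun m _ => countable_Iic m).mono h))

end Tspace

theorem job_croot : St_croot := by
  classical
  intro X S Y0 hY
  have key : ∀ d : ℕ, ∀ (R : Finset X) (Y1 : Set W), Y1 ⊆ Y0 → ¬ Y1.Countable →
      (∀ y ∈ Y1, R ⊆ S y ∧ (S y).card = R.card + d) →
      ∃ (R : Finset X) (Y' : Set W), Y' ⊆ Y0 ∧ ¬ Y'.Countable ∧ (∀ y ∈ Y', R ⊆ S y) ∧
        ∀ x ∉ R, {y ∈ Y' | x ∈ S y}.Countable := by
    intro d
    induction d with
    | zero =>
      intro R Y1 h1 h2 h3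
      refine ⟨R, Y1, h1, h2, fun y hy => (h3 y hy).1, fun x hx => ?_⟩
      have : {y ∈ Y1 | x ∈ S y} = ∅ := by
        ext y
        simp only [Set.mem_ofPred_eq, Set.mem_empty_iff_false, iff_false, not_and]
        intro hy hxS
        obtain ⟨h4, h5⟩ := h3 y hy
        rw [← Finset.eq_of_subset_of_card_le h4 (by omega)] at hxS
        exact hx hxS
      rw [this]
      exact Set.countable_empty
    | succ d ih =>
      intro R Y1 h1 h2 h3
      by_cases hR : ∀ x ∉ R, {y ∈ Y1 | x ∈ S y}.Countable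
      · exact ⟨R, Y1, h1, h2, fun y hy => (h3 y hy).1, hR⟩
      · push Not at hR
        obtain ⟨x, hx, h4⟩ := hR
        refine ih (insert x R) {y ∈ Y1 | x ∈ S y} (fun y hy => h1 hy.1) h4 fun y hy => ?_
        obtain ⟨h5, h6⟩ := h3 y hy.1
        refine ⟨Finset.insert_subset hy.2 h5, ?_⟩
        rw [Finset.card_insert_of_notMem hx, h6]
        omega
  obtain ⟨n, hn⟩ := exists_fiber' hY fun y => (S y).card
  exact key n ∅ _ (fun y hy => hy.1) hn fun y hy => ⟨Finset.empty_subset _, by simp [hy.2]⟩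

theorem job_space : St_space := by
  classical
  intro Γ D E b Q hΓ hD hQ
  -- the step function
  have hs0 : ∀ γ : W, ∃ s : W, max (b γ) γ < s := fun γ => Tspace.exists_gt_W _
  choose s hs using hs0
  -- the relation
  let G : W → W → Prop := fun γ γ' => Q γ γ' ∧ s γ < γ' ∧ ∀ x ∈ D γ', x ∉ E → s γ < x
  obtain ⟨e, he⟩ : ∃ e : W, ∀ x ∈ E, x ≤ e := Tspace.exists_ub E.countable_toSet
  let Γ0 : Set W := {γ ∈ Γ | e < γ}
  have hΓ0 : ¬ Γ0.Countable := by
    intro h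
    apply hΓ
    refine (h.union (Tspace.countable_Iic e)).mono ?_
    intro γ hγ
    by_cases h' : e < γ
    · exact Or.inl ⟨hγ, h'⟩
    · exact Or.inr (not_lt.1 h')
  have hG : ∀ γ ∈ Γ, {γ' ∈ Γ | ¬ G γ γ'}.Countable := by
    intro γ hγ
    have h1 : (⋃ x ∈ Set.Iic (s γ) \ (E : Set W), {γ' ∈ Γ | x ∈ D γ'}).Countable :=
      ((Tspace.countable_Iic _).mono Set.sdiff_subset).biUnion fun x hx => hD x hx.2
    refine ((hQ γ hγ).union ((Tspace.countable_Iic (s γ)).union h1)).mono ?_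
    rintro γ' ⟨hγ', h2⟩
    by_cases h3 : Q γ γ'
    · right
      by_cases h4 : s γ < γ'
      · right
        have h5 : ∃ x ∈ D γ', x ∉ E ∧ ¬ s γ < x := by
          by_contra hcon
          push Not at hcon
          exact h2 ⟨h3, h4, hcon⟩
        obtain ⟨x, hx, hxE, hxs⟩ := h5
        simp only [Set.mem_iUnion]
        exact ⟨x, ⟨not_lt.1 hxs, hxE⟩, hγ', hx⟩
      · left
        exact not_lt.1 h4
    · left
      exact ⟨hγ', h3⟩
  -- a maximal good set
  obtain ⟨M, hM⟩ := zorn_subset {A : Set W | A ⊆ Γ0 ∧ ∀ γ ∈ A, ∀ γ' ∈ A, γ < γ' → G γ γ'}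
    (by
      intro c hc hchain
      refine ⟨⋃₀ c, ⟨Set.sUnion_subset fun t ht => (hc ht).1, ?_⟩,
        fun t ht => Set.subset_sUnion_of_mem ht⟩
      rintro x ⟨t, ht, hx⟩ y ⟨t', ht', hy⟩ hxy
      rcases hchain.total ht ht' with h | h
      · exact (hc ht').2 x (h hx) y hy hxy
      · exact (hc ht).2 x hx y (h hy) hxy)
  have hM1 : M ⊆ Γ0 := hM.prop.1
  have hM2 : ∀ γ ∈ M, ∀ γ' ∈ M, γ < γ' → G γ γ' := hM.prop.2
  have hMu : ¬ M.Countable := by
    intro hc
    obtain ⟨t, ht⟩ := Tspace.exists_ub hc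
    apply hΓ0
    have h1 : (⋃ γ ∈ M, {γ' ∈ Γ | ¬ G γ γ'}).Countable :=
      hc.biUnion fun γ hγ => hG γ (hM1 hγ).1
    refine ((Tspace.countable_Iic t).union h1).mono ?_
    intro γ' hγ'
    by_cases h2 : t < γ'
    · right
      by_contra hcon
      have h3 : ∀ γ ∈ M, G γ γ' := by
        intro γ hγ
        by_contra h4
        apply hcon
        simp only [Set.mem_iUnion]
        exact ⟨γ, hγ, hγ'.1, h4⟩
      have hmem : insert γ' M ∈ {A : Set W | A ⊆ Γ0 ∧ ∀ γ ∈ A, ∀ γ' ∈ A, γ < γ' → G γ γ'} := by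
        refine ⟨Set.insert_subset hγ' hM1, ?_⟩
        rintro x (rfl | hx) y (rfl | hy) hxy
        · exact absurd hxy (lt_irrefl _)
        · exact absurd (hxy.trans_le (ht y hy)) (not_lt.2 h2.le)
        · exact h3 x hx
        · exact hM2 x hx y hy hxy
      have h5 : γ' ∈ M := hM.le_of_ge hmem (Set.subset_insert γ' M) (Set.mem_insert γ' M)
      exact absurd (ht γ' h5) (not_le.2 h2)
    · left
      exact not_lt.1 h2
  -- the next element
  have hnx : ∀ γ : W, ∃ n ∈ M, γ < n ∧ ∀ m ∈ M, γ < m → n ≤ m := by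
    intro γ
    obtain ⟨m, hm, hm'⟩ := Tspace.exists_gt_mem hMu γ
    obtain ⟨n, hn, hn'⟩ := WellFounded.has_min (wellFounded_lt (α := W)) {m ∈ M | γ < m}
      ⟨m, hm, hm'⟩
    refine ⟨n, hn.1, hn.2, fun k hk hk' => ?_⟩
    exact not_lt.1 (hn' k ⟨hk, hk'⟩)
  choose nx hnx1 hnx2 hnx3 using hnx
  let P : W → W → Prop := fun γ' γ0 => γ0 ∈ M ∧ γ0 < γ' ∧ ∀ γ ∈ M, γ < γ' → γ ≤ γ0
  let Γ' : Set W := {γ' ∈ M | ∃ γ0, P γ' γ0}
  have hpr : ∀ γ' : W, ∃ γ0, γ' ∈ Γ' → P γ' γ0 := by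
    intro γ'
    by_cases h : γ' ∈ Γ'
    · obtain ⟨γ0, h0⟩ := h.2
      exact ⟨γ0, fun _ => h0⟩
    · exact ⟨γ', fun h' => absurd h' h⟩
  choose pr hpr using hpr
  refine ⟨Γ', fun γ' => s (pr γ'), fun γ' h => (hM1 h.1).1, ?_, ?_, ?_⟩
  · intro hc
    apply hMu
    refine Set.MapsTo.countable_of_injOn (f := nx) (t := Γ') ?_ ?_ hc
    · intro γ hγ
      refine ⟨hnx1 γ, γ, hγ, hnx2 γ, ?_⟩
      intro m hm hlt
      by_contra hcon
      exact absurd (hnx3 γ m hm (not_le.1 hcon)) (not_le.2 hlt)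
    · intro x hx y hy hxy
      rcases lt_trichotomy x y with h | h | h
      · exact absurd (hnx2 y) (not_lt.2 (hxy ▸ hnx3 x y hy h))
      · exact h
      · exact absurd (hnx2 x) (not_lt.2 (hxy ▸ hnx3 y x hx h))
  · intro γ' hγ'
    obtain ⟨h1, h2, h3⟩ := hpr γ' hγ'
    obtain ⟨_, h5, h6⟩ := hM2 _ h1 _ hγ'.1 h2
    exact ⟨h5, h6, fun x hx => (he x hx).trans_lt (hM1 hγ'.1).2⟩
  · intro γ hγ γ' hγ' hlt
    obtain ⟨h1, h2, h3⟩ := hpr γ' hγ'
    refine ⟨?_, (hM2 γ hγ.1 γ' hγ'.1 hlt).1⟩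
    have h4 : γ ≤ pr γ' := h3 γ hγ.1 hlt
    rcases lt_or_eq_of_le h4 with h5 | h5
    · have h6 : s γ < pr γ' := (hM2 γ hγ.1 _ h1 h5).2.1
      have h7 : b γ < s γ := (le_max_left _ _).trans_lt (hs γ)
      have h8 : pr γ' < s (pr γ') := (le_max_right _ _).trans_lt (hs (pr γ'))
      exact h7.trans (h6.trans h8)
    · have h7 : b γ < s γ := (le_max_left _ _).trans_lt (hs γ)
      show b γ < s (pr γ')
      rw [← h5]
      exact h7

end Pool.Agent.Helper919.HM
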