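import Pool.Agent.Helper919_HM.Tmn
import Pool.Agent.Helper919_HM.Tns
import Pool.Agent.Helper919_HM.Tns2
import Pool.Agent.Helper919_HM.Tspace
import Pool.Agent.Helper919_HM.Tpair
import Pool.Agent.Helper919_HM.Tgood
import Pool.Agent.Helper919_HM.Tcc
import Pool.Agent.Helper919_HM.Tgen
import Pool.Agent.Helper919_HM.Treg
import Pool.Agent.Helper919_HM.Tbook

set_option autoImplicit false
set_option linter.unusedSectionVars false

/-! # The forcing extension -/

namespace Pool.Agent.Helper919.HM

open Cardinal Pool.Agent.Helper919.DQ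

theorem exists_w0 : ∃ w0 : W, (Set.Iio w0).Infinite := by
  by_contra hcon
  push Not at hcon
  have hfin : ∀ w : W, (Set.Iio w).Finite := hcon
  have hinj : Function.Injective fun w : W => (hfin w).toFinset.card := by
    have hmono : StrictMono fun w : W => (hfin w).toFinset.card := by
      intro x y hxy
      refine Finset.card_lt_card ?_
      rw [Finset.ssubset_iff_of_subset]
      · exact ⟨x, by simpa using hxy, by simp⟩
      · intro z hz
        simp only [Set.Finite.mem_toFinset, Set.mem_Iio] at hz ⊢
        exact hz.trans hxy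
    exact hmono.injective
  exact not_countable_W hinj.countable

theorem main : ∃ (P : Type) (_ : Preorder P), Nonempty P ∧ CCC P ∧ ∀ p : P,
    p ∈ fex (fun G : W → W → Set P => HMGraph G) ∧
    p ∈ fnot (fex fun G : W → W → Set P => RegressiveHMGraph G) := by
  have hmono := job_mono
  have hunion := job_union
  have hdiag := job_diag
  have hctb := job_ctb
  have hnlim := job_nlim
  have huniv := job_univ
  have hfib := job_fiber hmono hunion
  have hfod := job_fodor hmono hunion hdiag hnlim
  have hroot := job_root hmono hunion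
  obtain ⟨ρ, hρ1, hρ2⟩ := job_rho hmono hunion hctb hnlim huniv
  obtain ⟨w0, hw0⟩ := exists_w0
  obtain ⟨J, _, _, g, hcof, hg⟩ := job_book
  let π : Par := ⟨ρ, w0⟩
  have hcroot := job_croot
  have hspace := job_space
  have hdec : St_dec g π := Tpair.job_dec
  have hcc : ∀ j, CCj g π j := by
    intro j
    induction j using WellFoundedLT.induction with
    | ind j IH => exact Tcc.job_cc g π hcroot hspace hdec j IH
  have hmn : ∀ j, Mnj g π j := by
    intro j
    induction j using WellFoundedLT.induction with
    | ind j IH =>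
      exact Tmn.job_mn hmono hunion hdiag hctb hfib hfod hroot hcroot hspace
        (job_good g π hunion hmono hctb) hdec Tpair.job_pair0 Tpair.job_pair1 hcc j IH
  obtain ⟨hccc, hanti⟩ := (job_anti g π) hcof hcc
  refine ⟨Cd g π, inferInstance, inferInstance, hccc, fun p => ⟨?_, ?_⟩⟩
  · refine mem_fex.2 fun q _ => ⟨q, le_rfl, Hn g π, job_small g π q, ?_⟩
    exact job_unc g π hfib hmono hctb hρ2 hcof hmn q
  · intro q _ hq
    obtain ⟨r, _, G, ⟨hG1, _⟩, hG2⟩ := mem_fex.1 hq q le_rfl
    exact hG2 r le_rfl (job_reg g π hρ1 hw0 hcof hg hanti G r hG1)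

end Pool.Agent.Helper919.HM
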