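import Pool.Agent.Helper919_DQ.Facts

set_option autoImplicit false

/-!
# Hajnal–Máté graphs in a forcing extension

The forcing language (`fnot`, `fand`, `fall`, `fimp`, `fex`, `meets`), the set `W` of the countable
ordinals and the countable chain condition `CCC` are those of
`Pool.Agent.Helper919_DQ.Lang`.
-/

namespace Pool.Agent.Helper919.HM

open Cardinal Pool.Agent.Helper919.DQ

universe u v

section

variable {P : Type u} [Preorder P]

/-- `φ or ψ` is `not (not φ and not ψ)`. -/
def forr (φ ψ : Set P) : Set P := fnot (fand (fnot φ) (fnot ψ))

/-- An absolute statement about ground model objects. -/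
def fground (h : Prop) : Set P := {_p | h}

/-- The relation named by `R` is a function from `X` to `Y`. -/
def IsFun {X Y : Type} (R : X → Y → Set P) : Set P :=
  fand (fall fun x => fex fun y => meets (R x y))
    (fall fun x => fall fun y => fall fun y' =>
      fimp (fand (meets (R x y)) (meets (R x y'))) (fground (y = y')))

/-- `G` names a graph on the set of the countable ordinals: `G β α`, for `β < α`, says that
`{β, α}` is an edge. For every `α` the set `N(α)` of the `β < α` adjacent to `α` is finite, or it
is cofinal in `α` and its intersection with every `ζ < α` is finite (that is, it is cofinal in `α`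
and has order type `ω`). -/
def Small (G : W → W → Set P) : Set P :=
  fall fun α => forr
    (fex fun B : Finset W => fall fun β => fall fun _ : β < α =>
      fimp (meets (G β α)) (fground (β ∈ B)))
    (fall fun ζ => fall fun _ : ζ < α =>
      fand (fex fun β => fand (fground (ζ ≤ β ∧ β < α)) (meets (G β α)))
        (fex fun B : Finset W => fall fun β => fall fun _ : β < ζ =>
          fimp (meets (G β α)) (fground (β ∈ B))))

/-- `c` names a proper colouring of the graph named by `G`, with values in the ground model set
`X`. -/
def Colours (G : W → W → Set P) {X : Type} (c : W → X → Set P) : Set P :=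
  fand (IsFun c)
    (fall fun α => fall fun β => fall fun _ : β < α =>
      fimp (meets (G β α)) (fall fun x => fnot (fand (meets (c β x)) (meets (c α x)))))

/-- The graph named by `G` is a Hajnal–Máté graph: it has small sets `N(α)` and no proper
colouring with countably many colours. -/
def HMGraph (G : W → W → Set P) : Set P :=
  fand (Small G) (fnot (fex fun c : W → ℕ → Set P => Colours G c))

/-- There is a regressive proper colouring: a proper colouring `c : ω₁ → ω₁` with `c(α) < α` for
every nonzero limit ordinal `α`. -/
def HasRegressive (G : W → W → Set P) : Set P :=
  fex fun c : W → W → Set P =>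
    fand (Colours G c)
      (fall fun α => fall fun _ : Order.IsSuccLimit α => fall fun γ =>
        fimp (meets (c α γ)) (fground (γ < α)))

/-- A regressive Hajnal–Máté graph: a Hajnal–Máté graph with no regressive proper colouring. -/
def RegressiveHMGraph (G : W → W → Set P) : Set P :=
  fand (HMGraph G) (fnot (HasRegressive G))

end

end Pool.Agent.Helper919.HM
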