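import Pool.Agent.Helper919_HM.Lang

set_option autoImplicit false
set_option linter.unusedSectionVars false
set_option linter.unusedVariables false

/-! # The poset -/

namespace Pool.Agent.Helper919.HM

open Cardinal Pool.Agent.Helper919.DQ

/-- atoms: `h η k ξ` says that `ξ` is the `k`-th vertex below `η` adjacent to `η` in the generic
graph; `c j α γ` says that the `j`-th colouring gives `α` the colour `γ`. -/
inductive Atom (J : Type) : Type
  | h : W → ℕ → W → Atom J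
  | c : J → W → W → Atom J

abbrev Rep (J : Type) : Type := Finset (Atom J)

variable {J : Type}

/-- the atom belongs to a stage before `j` -/
def Atom.Bel [LT J] (a : Atom J) (j : J) : Prop :=
  match a with
  | .h _ _ _ => True
  | .c i _ _ => i < j

/-- the part on the generic graph is consistent -/
def HBase (p : Rep J) : Prop :=
  (∀ v k x y, Atom.h v k x ∈ p → Atom.h v k y ∈ p → x = y) ∧
  (∀ v k l x y, Atom.h v k x ∈ p → Atom.h v l y ∈ p → k < l → x < y) ∧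
  (∀ v k l y, Atom.h v l y ∈ p → k < l → ∃ x, Atom.h v k x ∈ p) ∧
  (∀ v k x, Atom.h v k x ∈ p → x < v ∧ Order.IsSuccLimit v)

/-- the parameters: `ρ` is a regressive function, `w0` an infinite ordinal -/
structure Par : Type where
  ρ : W → W
  w0 : W

/-- the colour `γ` is allowed at the vertex `α` -/
def Al (π : Par) (α γ : W) : Prop :=
  (Order.IsSuccLimit α → π.ρ α ≤ γ ∧ γ < α) ∧ (¬ Order.IsSuccLimit α → γ < π.w0)

/-- the `i`-th colouring is a function with allowed values -/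
def CBase (π : Par) (i : J) (p : Rep J) : Prop :=
  (∀ α γ γ', Atom.c i α γ ∈ p → Atom.c i α γ' ∈ p → γ = γ') ∧
    ∀ α γ, Atom.c i α γ ∈ p → Al π α γ

/-- `p` forces at stage `i` that `(x, α)` is not in the graph named by `N` -/
def NE [LT J] (N : W → W → Set (Rep J)) (V : Set (Rep J)) (i : J) (p : Rep J) (x α : W) : Prop :=
  ∀ u ∈ V, (∀ a ∈ p, a.Bel i → a ∈ u) → ∀ e ∈ N x α, ¬ e ⊆ u

/-- it is forced at stage `i` that the graph named by `N` is locally small -/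
def OKn (N : W → W → Set (Rep J)) (V : Set (Rep J)) : Prop :=
  ∀ α ζ, ζ < α → ∀ p ∈ V, ∃ p' ∈ V, p ⊆ p' ∧ ∃ B : Finset W, ∀ x < ζ, x ∉ B →
    ∀ u ∈ V, p' ⊆ u → ∀ e ∈ N x α, ¬ e ⊆ u

/-- validity at stage `i` -/
def CVal [LT J] (N : W → W → Set (Rep J)) (V : Set (Rep J)) (i : J) (p : Rep J) : Prop :=
  (∀ α γ, Atom.c i α γ ∈ p → OKn N V) ∧
    ∀ α α' γ, α < α' → Atom.c i α γ ∈ p → Atom.c i α' γ ∈ p → NE N V i p α α'

variable (g : J → W → W → Set (Rep J)) (π : Par) [LinearOrder J] [WellFoundedLT J]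

/-- the conditions of the stages, by recursion -/
noncomputable def Vd : J → Set (Rep J) :=
  WellFoundedLT.fix (motive := fun _ : J => Set (Rep J)) fun j D =>
    {p | HBase p ∧ (∀ a ∈ p, a.Bel j) ∧ ∀ i, ∀ h : i < j, CBase π i p ∧ CVal (g i) (D i h) i p}

theorem Vd_eq (j : J) : Vd g π j = {p | HBase p ∧ (∀ a ∈ p, a.Bel j) ∧
    ∀ i, i < j → CBase π i p ∧ CVal (g i) (Vd g π i) i p} := by
  rw [Vd, WellFoundedLT.fix_eq]

theorem mem_Vd {j : J} {p : Rep J} : p ∈ Vd g π j ↔ HBase p ∧ (∀ a ∈ p, a.Bel j) ∧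
    ∀ i, i < j → CBase π i p ∧ CVal (g i) (Vd g π i) i p := by
  rw [Vd_eq]; rfl

/-- valid conditions -/
def Ok (p : Rep J) : Prop := HBase p ∧ ∀ i, CBase π i p ∧ CVal (g i) (Vd g π i) i p

/-- the poset -/
def Cd : Type := {p : Rep J // Ok g π p}

variable {g π}

instance : Preorder (Cd g π) where
  le q p := p.1 ⊆ q.1
  le_refl _ := Finset.Subset.refl _
  le_trans _ _ _ h h' := h'.trans h

theorem le_iff {q p : Cd g π} : q ≤ p ↔ p.1 ⊆ q.1 := Iff.rfl

theorem ok_empty : Ok g π (∅ : Rep J) := by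
  refine ⟨⟨?_, ?_, ?_, ?_⟩, fun i => ⟨⟨?_, ?_⟩, ⟨?_, ?_⟩⟩⟩ <;> intros <;> simp_all

instance : Nonempty (Cd g π) := ⟨⟨∅, ok_empty⟩⟩

theorem Atom.Bel.mono {a : Atom J} {i j : J} (h : a.Bel i) (hij : i ≤ j) : a.Bel j := by
  cases a with
  | h => trivial
  | c i' => exact lt_of_lt_of_le (h : i' < i) hij

theorem NE.mono {N : W → W → Set (Rep J)} {V : Set (Rep J)} {i : J} {p q : Rep J} {x α : W}
    (h : NE N V i p x α) (hpq : ∀ a ∈ p, a.Bel i → a ∈ q) : NE N V i q x α :=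
  fun u hu hq e he => h u hu (fun a ha hai => hq a (hpq a ha hai) hai) e he

open Classical in
noncomputable def res (p : Rep J) (j : J) : Rep J := p.filter fun a => a.Bel j

open Classical in
theorem mem_res {p : Rep J} {j : J} {a : Atom J} : a ∈ res p j ↔ a ∈ p ∧ a.Bel j :=
  Finset.mem_filter (p := fun a : Atom J => a.Bel j)

theorem HBase.of_iff {p q : Rep J} (h : HBase p) (hq : ∀ v k x, Atom.h v k x ∈ q ↔
    Atom.h v k x ∈ p) : HBase q := by
  obtain ⟨h1, h2, h3, h4⟩ := h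
  refine ⟨fun v k x y hx hy => h1 v k x y ((hq _ _ _).1 hx) ((hq _ _ _).1 hy),
    fun v k l x y hx hy => h2 v k l x y ((hq _ _ _).1 hx) ((hq _ _ _).1 hy),
    fun v k l y hy hkl => ?_, fun v k x hx => h4 v k x ((hq _ _ _).1 hx)⟩
  obtain ⟨x, hx⟩ := h3 v k l y ((hq _ _ _).1 hy) hkl
  exact ⟨x, (hq _ _ _).2 hx⟩

theorem res_aux {p : Rep J} {i j : J} (hi : i < j)
    (h : CBase π i p ∧ CVal (g i) (Vd g π i) i p) :
    CBase π i (res p j) ∧ CVal (g i) (Vd g π i) i (res p j) := by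
  obtain ⟨⟨h1, h2⟩, h3, h4⟩ := h
  refine ⟨⟨fun α γ γ' ha hb => h1 α γ γ' (mem_res.1 ha).1 (mem_res.1 hb).1,
    fun α γ ha => h2 α γ (mem_res.1 ha).1⟩, fun α γ ha => h3 α γ (mem_res.1 ha).1,
    fun α α' γ hlt ha hb => ?_⟩
  exact (h4 α α' γ hlt (mem_res.1 ha).1 (mem_res.1 hb).1).mono
    fun a ha hai => mem_res.2 ⟨ha, hai.mono hi.le⟩

/-- restrictions of conditions are conditions of the stage -/
theorem res_mem {p : Rep J} (hp : Ok g π p) (j : J) : res p j ∈ Vd g π j := by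
  rw [mem_Vd]
  refine ⟨hp.1.of_iff fun v k x => ?_, fun a ha => (mem_res.1 ha).2, fun i hi => ?_⟩
  · exact ⟨fun h => (mem_res.1 h).1, fun h => mem_res.2 ⟨h, trivial⟩⟩
  · exact res_aux hi (hp.2 i)

theorem res_mem' {p : Rep J} {j' : J} (hp : p ∈ Vd g π j') {j : J} (hj : j ≤ j') :
    res p j ∈ Vd g π j := by
  rw [mem_Vd] at hp ⊢
  refine ⟨hp.1.of_iff fun v k x => ?_, fun a ha => (mem_res.1 ha).2, fun i hi => ?_⟩
  · exact ⟨fun h => (mem_res.1 h).1, fun h => mem_res.2 ⟨h, trivial⟩⟩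
  · exact res_aux hi (hp.2.2 i (lt_of_lt_of_le hi hj))

/-- the conditions of the stages are conditions -/
theorem ok_of_mem {j : J} {q : Rep J} (hq : q ∈ Vd g π j) : Ok g π q := by
  rw [mem_Vd] at hq
  obtain ⟨h1, h2, h3⟩ := hq
  refine ⟨h1, fun i => ?_⟩
  by_cases hi : i < j
  · exact h3 i hi
  · refine ⟨⟨fun α γ γ' ha => ?_, fun α γ ha => ?_⟩, fun α γ ha => ?_, fun α α' γ _ ha => ?_⟩
    all_goals exact absurd (h2 _ ha) hi

/-- conditions all of whose atoms are before `j` -/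
theorem mem_of_ok {j : J} {q : Rep J} (hq : Ok g π q) (h : ∀ a ∈ q, a.Bel j) : q ∈ Vd g π j := by
  rw [mem_Vd]
  exact ⟨hq.1, h, fun i _ => hq.2 i⟩

/-- the general criterion for the validity of a union: every pair of atoms at a stage which
matters is taken care of by a part -/
theorem ok_of_parts {w : Rep J} (hH : HBase w)
    (hf : ∀ i α γ γ', Atom.c i α γ ∈ w → Atom.c i α γ' ∈ w → γ = γ')
    (hv : ∀ i α γ, Atom.c i α γ ∈ w → ∃ p, Ok g π p ∧ Atom.c i α γ ∈ p)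
    (hne : ∀ i α α' γ, α < α' → Atom.c i α γ ∈ w → Atom.c i α' γ ∈ w →
      ∃ z, (∀ a ∈ z, a.Bel i → a ∈ w) ∧ NE (g i) (Vd g π i) i z α α') : Ok g π w := by
  refine ⟨hH, fun i => ⟨⟨hf i, fun α γ ha => ?_⟩, fun α γ ha => ?_, fun α α' γ hlt ha hb => ?_⟩⟩
  · obtain ⟨p, hp, hap⟩ := hv i α γ ha
    exact (hp.2 i).1.2 α γ hap
  · obtain ⟨p, hp, hap⟩ := hv i α γ ha
    exact (hp.2 i).2.1 α γ hap
  · obtain ⟨z, hz, hz'⟩ := hne i α α' γ hlt ha hb
    exact hz'.mono hz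

/-- two atoms in the same condition -/
theorem ne_of_ok {p w : Rep J} (hp : Ok g π p) (hpw : p ⊆ w) {i : J} {α α' γ : W} (hlt : α < α')
    (ha : Atom.c i α γ ∈ p) (hb : Atom.c i α' γ ∈ p) :
    ∃ z, (∀ a ∈ z, a.Bel i → a ∈ w) ∧ NE (g i) (Vd g π i) i z α α' :=
  ⟨p, fun _ ha _ => hpw ha, (hp.2 i).2.2 α α' γ hlt ha hb⟩

/-- a condition of stage `j` extending the restriction of `p` is compatible with `p` -/
theorem glue [DecidableEq (Atom J)] {j : J} {q p : Rep J} (hq : q ∈ Vd g π j) (hp : Ok g π p)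
    (h : ∀ a ∈ p, a.Bel j → a ∈ q) : Ok g π (q ∪ p) := by
  have hq' := ok_of_mem hq
  have hqb := ((mem_Vd g π).1 hq).2.1
  have key : ∀ a ∈ q ∪ p, a.Bel j → a ∈ q := by
    intro a ha hb
    rcases Finset.mem_union.1 ha with hm | hm
    · exact hm
    · exact h _ hm hb
  have key' : ∀ a ∈ q ∪ p, ¬ a.Bel j → a ∈ p := by
    intro a ha hb
    rcases Finset.mem_union.1 ha with hm | hm
    · exact absurd (hqb _ hm) hb
    · exact hm
  refine ok_of_parts (hq'.1.of_iff fun v k x => ⟨fun hm => key _ hm trivial,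
    fun hm => Finset.mem_union_left _ hm⟩) (fun i α γ γ' ha hb => ?_) (fun i α γ ha => ?_)
    fun i α α' γ hlt ha hb => ?_
  · by_cases hi : i < j
    · exact (hq'.2 i).1.1 α γ γ' (key _ ha hi) (key _ hb hi)
    · exact (hp.2 i).1.1 α γ γ' (key' _ ha hi) (key' _ hb hi)
  · rcases Finset.mem_union.1 ha with hm | hm
    · exact ⟨q, hq', hm⟩
    · exact ⟨p, hp, hm⟩
  · by_cases hi : i < j
    · exact ne_of_ok hq' Finset.subset_union_left hlt (key _ ha hi) (key _ hb hi)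
    · exact ne_of_ok hp Finset.subset_union_right hlt (key' _ ha hi) (key' _ hb hi)

/-- inside a stage -/
theorem glue' [DecidableEq (Atom J)] {i j : J} (hij : i ≤ j) {q p : Rep J} (hq : q ∈ Vd g π i)
    (hp : p ∈ Vd g π j) (h : ∀ a ∈ p, a.Bel i → a ∈ q) : q ∪ p ∈ Vd g π j := by
  refine mem_of_ok (glue hq (ok_of_mem hp) h) fun a ha => ?_
  rcases Finset.mem_union.1 ha with hm | hm
  · exact (((mem_Vd g π).1 hq).2.1 a hm).mono hij
  · exact ((mem_Vd g π).1 hp).2.1 a hm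

/-- the stages of a condition -/
def st (p : Rep J) : Set J := {i | ∃ α γ, Atom.c i α γ ∈ p}

theorem st_finite (p : Rep J) : (st p).Finite := by
  classical
  refine (p.biUnion fun a => match a with
    | .h _ _ _ => ∅
    | .c i _ _ => ({i} : Finset J)).finite_toSet.subset ?_
  rintro i ⟨α, γ, h⟩
  simp only [Finset.coe_biUnion, Set.mem_iUnion]
  exact ⟨_, h, by simp⟩

/-- the countable ordinals mentioned in a condition -/
def vs (p : Rep J) : Set W := {x | (∃ k y, Atom.h x k y ∈ p) ∨ (∃ v k, Atom.h v k x ∈ p) ∨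
  (∃ i γ, Atom.c i x γ ∈ p) ∨ ∃ i α, Atom.c i α x ∈ p}

theorem vs_finite (p : Rep J) : (vs p).Finite := by
  classical
  refine (p.biUnion fun a => match a with
    | .h v _ x => ({v, x} : Finset W)
    | .c _ α γ => ({α, γ} : Finset W)).finite_toSet.subset ?_
  rintro x (⟨k, y, h⟩ | ⟨v, k, h⟩ | ⟨i, γ, h⟩ | ⟨i, α, h⟩)
  all_goals
    simp only [Finset.coe_biUnion, Set.mem_iUnion]
    exact ⟨_, h, by simp⟩

end Pool.Agent.Helper919.HM
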