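import Pool.Agent.Helper919_HM.Poset
import Pool.Agent.Helper919_DQ.Book

set_option autoImplicit false

/-! # The statements of the lemmas -/

namespace Pool.Agent.Helper919.HM

open Cardinal Pool.Agent.Helper919.DQ

/-! ### Nonstationary sets -/

/-- limit closure points of `f` -/
def Clo (f : W → W) (ξ : W) : Prop := Order.IsSuccLimit ξ ∧ ∀ x < ξ, f x < ξ

/-- nonstationary sets -/
def NS (S : Set W) : Prop := ∃ f : W → W, ∀ ξ ∈ S, ¬ Clo f ξ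

def St_mono : Prop := ∀ S T : Set W, NS S → T ⊆ S → NS T
def St_union : Prop := ∀ S : ℕ → Set W, (∀ n, NS (S n)) → NS (⋃ n, S n)
def St_diag : Prop := ∀ N : W → Set W, (∀ δ, NS (N δ)) → NS {ξ | ∃ δ < ξ, ξ ∈ N δ}
def St_ctb : Prop := ∀ S : Set W, S.Countable → NS S
def St_nlim : Prop := NS {ξ : W | ¬ Order.IsSuccLimit ξ}
def St_univ : Prop := ¬ NS (Set.univ : Set W)
/-- pressing down for finite sets -/
def St_fodor : Prop := ∀ (S : Set W) (V : W → Finset W), ¬ NS S → (∀ ξ ∈ S, ∀ x ∈ V ξ, x < ξ) →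
  ∃ F : Finset W, ¬ NS {ξ ∈ S | V ξ = F}
/-- a stationary set is divided into countably many pieces -/
def St_fiber : Prop := ∀ (S : Set W) (Z : Type) (C : Set Z) (f : W → Z), ¬ NS S → C.Countable →
  (∀ ξ ∈ S, f ξ ∈ C) → ∃ z ∈ C, ¬ NS {ξ ∈ S | f ξ = z}
/-- roots -/
def St_root : Prop := ∀ (X : Type) (F : W → Finset X) (S : Set W), ¬ NS S →
  ∃ (R : Finset X) (S' : Set W), S' ⊆ S ∧ ¬ NS S' ∧ (∀ ξ ∈ S', R ⊆ F ξ) ∧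
    ∀ x ∉ R, NS {ξ ∈ S' | x ∈ F ξ}
/-- a regressive function which is above every `γ` on a stationary set -/
def St_rho : Prop := ∃ ρ : W → W, (∀ ξ, Order.IsSuccLimit ξ → ρ ξ < ξ) ∧
  ∀ γ, ¬ NS {ξ | Order.IsSuccLimit ξ ∧ γ ≤ ρ ξ}

/-! ### Uncountable sets -/

/-- roots, for the ideal of countable sets -/
def St_croot : Prop := ∀ (X : Type) (F : W → Finset X) (Γ : Set W), ¬ Γ.Countable →
  ∃ (R : Finset X) (Γ' : Set W), Γ' ⊆ Γ ∧ ¬ Γ'.Countable ∧ (∀ ξ ∈ Γ', R ⊆ F ξ) ∧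
    ∀ x ∉ R, {ξ ∈ Γ' | x ∈ F ξ}.Countable

/-- spacing out -/
def St_space : Prop := ∀ (Γ : Set W) (D : W → Finset W) (E : Finset W) (b : W → W)
  (Q : W → W → Prop), ¬ Γ.Countable → (∀ x ∉ E, {γ ∈ Γ | x ∈ D γ}.Countable) →
  (∀ γ ∈ Γ, {γ' ∈ Γ | ¬ Q γ γ'}.Countable) →
  ∃ (Γ' : Set W) (z : W → W), Γ' ⊆ Γ ∧ ¬ Γ'.Countable ∧
    (∀ γ' ∈ Γ', z γ' < γ' ∧ (∀ x ∈ D γ', x ∉ E → z γ' < x) ∧ ∀ x ∈ E, x < γ') ∧
    ∀ γ ∈ Γ', ∀ γ' ∈ Γ', γ < γ' → b γ < z γ' ∧ Q γ γ'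

section

variable {J : Type} (g : J → W → W → Set (Rep J)) (π : Par) [LinearOrder J] [WellFoundedLT J]

/-! ### The chain condition and the main lemma -/

/-- two members of an uncountable family in `Vd j` are compatible -/
def CCj (j : J) : Prop := ∀ (Γ : Set W) (f : W → Rep J), ¬ Γ.Countable →
  (∀ ξ ∈ Γ, f ξ ∈ Vd g π j) → ∃ ξ ∈ Γ, ∃ η ∈ Γ, ξ < η ∧ ∃ u ∈ Vd g π j, f ξ ⊆ u ∧ f η ⊆ u

def Mnj (j : J) : Prop :=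
  ∀ (Γ : Set W), ¬ Γ.Countable → ∀ (S : W → Set W) (f : W → W → Rep J),
    (∀ γ ∈ Γ, ¬ NS (S γ)) →
    (∀ γ ∈ Γ, ∀ ξ ∈ S γ, Order.IsSuccLimit ξ ∧ γ ≤ π.ρ ξ ∧ f γ ξ ∈ Vd g π j) →
    ∃ γ ∈ Γ, ∃ γ' ∈ Γ, γ < γ' ∧ ∀ ζ : W, ∃ ξ ∈ S γ, ∃ η ∈ S γ', ζ < ξ ∧ ξ < η ∧
      ∃ u ∈ Vd g π j, f γ ξ ⊆ u ∧ f γ' η ⊆ u ∧ ∃ k, Atom.h η k ξ ∈ u

/-- the inductive step of the chain condition -/
def St_cc : Prop := ∀ j, (∀ i < j, CCj g π i) → CCj g π j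

/-- some countable part of a set of conditions is predense in it -/
def Anti : Prop := ∀ D : Set (Cd g π), ∃ A ⊆ D, A.Countable ∧
  ∀ p ∈ D, ∃ a ∈ A, ∃ s, s ≤ a ∧ s ≤ p

/-- the chain condition for the whole poset -/
def St_anti : Prop := (∀ S : Set J, #S ≤ ℵ_ 1 → ∃ b, ∀ s ∈ S, s < b) → (∀ j, CCj g π j) →
  CCC (Cd g π) ∧ Anti g π

/-- a condition which forces that stationary many members of a family are in the generic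
filter -/
def St_good : Prop := ∀ j, CCj g π j → ∀ (S : Set W) (r : W → Rep J), ¬ NS S →
  (∀ ξ ∈ S, r ξ ∈ Vd g π j) → ∃ r0 ∈ Vd g π j, ∀ r' ∈ Vd g π j, r0 ⊆ r' →
    ¬ NS {ξ ∈ S | ∃ u ∈ Vd g π j, r' ⊆ u ∧ r ξ ⊆ u}

/-- deciding finitely many neighbourhoods -/
def St_dec : Prop := ∀ i, OKn (g i) (Vd g π i) → ∀ (A : Finset W) (ζ : W), (∀ α ∈ A, ζ < α) →
  ∀ p ∈ Vd g π i, ∃ p' ∈ Vd g π i, p ⊆ p' ∧ ∃ B : Finset W, (∀ x ∈ B, x < ζ) ∧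
    ∀ α ∈ A, ∀ x < ζ, x ∉ B → NE (g i) (Vd g π i) i p' x α

/-- the amalgamation when there is no common stage -/
def St_pair0 : Prop := ∀ (j : J) (p q : Rep J) (E E' : Finset W) (ξ η : W), p ∈ Vd g π j →
  q ∈ Vd g π j → Disjoint (st p) (st q) → ξ < η → Order.IsSuccLimit η →
  (∀ v k x, Atom.h v k x ∈ p → v < η ∧ (v < ξ → v ∈ E)) →
  (∀ v k x, Atom.h v k x ∈ q → v < η → v ∈ E') →
  (∀ v ∈ E', v < ξ) →
  (∀ v ∈ E, v ∈ E' → ∀ k x, Atom.h v k x ∈ p ↔ Atom.h v k x ∈ q) →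
  (∀ k x, Atom.h η k x ∈ q → x < ξ) →
  ∃ u ∈ Vd g π j, p ⊆ u ∧ q ⊆ u ∧ ∃ k, Atom.h η k ξ ∈ u

/-- the amalgamation over a common extension `u` at stage `i`, the last common stage -/
def St_pair1 : Prop := ∀ (i j : J) (p q u : Rep J) (E E' : Finset W) (ξ η : W), i < j →
  p ∈ Vd g π j → q ∈ Vd g π j → u ∈ Vd g π i →
  (∀ a ∈ p, a.Bel i → a ∈ u) → (∀ a ∈ q, a.Bel i → a ∈ u) →
  (∀ i' ∈ st p, i' ∈ st q → i' ≤ i) → ξ < η →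
  (∀ α κ, Atom.c i α κ ∈ p → α < η ∧ κ < η ∧ (α < ξ → α ∈ E) ∧ (κ < ξ → κ ∈ E)) →
  (∀ α κ, Atom.c i α κ ∈ q → (α < η → α ∈ E') ∧ (κ < η → κ ∈ E')) →
  (∀ v ∈ E, v < ξ) → (∀ v ∈ E', v < ξ) →
  (∀ α κ, Atom.c i α κ ∈ p → ξ < α → ∀ x < ξ, x ∉ E → NE (g i) (Vd g π i) i u x α) →
  (∀ α κ, Atom.c i α κ ∈ q → η < α → ∀ x < η, x ∉ E' → NE (g i) (Vd g π i) i u x α) →
  (∀ κ, Atom.c i η κ ∈ q → κ ∉ E) → (∀ κ, Atom.c i ξ κ ∈ p → κ ∉ E') →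
  (∀ α ∈ E, α ∈ E' → ∀ κ, Atom.c i α κ ∈ p ↔ Atom.c i α κ ∈ q) →
  (∀ α ∈ E, α ∉ E' → ∀ α' ∈ E', α' ∉ E → ∀ κ, Atom.c i α κ ∈ p → Atom.c i α' κ ∈ q →
    (α < α' → NE (g i) (Vd g π i) i u α α') ∧ (α' < α → NE (g i) (Vd g π i) i u α' α)) →
  ∃ w ∈ Vd g π j, u ⊆ w ∧ p ⊆ w ∧ q ⊆ w

/-- the inductive step of the main lemma -/
def St_mn : Prop := (∀ j, CCj g π j) → ∀ j, (∀ i < j, Mnj g π i) → Mnj g π j

/-! ### The generic graph and the generic colourings -/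

/-- the generic graph -/
def Hn (ξ η : W) : Set (Cd g π) := {p | ∃ k, Atom.h η k ξ ∈ p.1}

/-- the set `N(α)` has the right form in the generic graph -/
def St_small : Prop := ∀ p : Cd g π, p ∈ Small (Hn g π)

/-- the generic graph is not countably chromatic -/
def St_unc : Prop := (∀ γ, ¬ NS {ξ | Order.IsSuccLimit ξ ∧ γ ≤ π.ρ ξ}) →
  (∀ S : Set J, #S ≤ ℵ_ 1 → ∃ b, ∀ s ∈ S, s < b) → (∀ j, Mnj g π j) →
  ∀ p : Cd g π, p ∈ fnot (fex fun c : W → ℕ → Set (Cd g π) => Colours (Hn g π) c)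

/-- every graph with small neighbourhoods has a regressive colouring -/
def St_reg : Prop := (∀ ξ, Order.IsSuccLimit ξ → π.ρ ξ < ξ) → (Set.Iio π.w0).Infinite →
  (∀ S : Set J, #S ≤ ℵ_ 1 → ∃ b, ∀ s ∈ S, s < b) →
  (∀ N : W → W → Set (Rep J), (∀ x α, (N x α).Countable) → ∀ b, ∃ j, b ≤ j ∧ g j = N) →
  Anti g π → ∀ (G : W → W → Set (Cd g π)) (q : Cd g π), q ∈ Small G → q ∈ HasRegressive G

end

/-- the bookkeeping -/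
def St_book : Prop := ∃ (J : Type) (_ : LinearOrder J) (_ : WellFoundedLT J)
  (g : J → W → W → Set (Rep J)),
  (∀ S : Set J, #S ≤ ℵ_ 1 → ∃ b, ∀ s ∈ S, s < b) ∧
  ∀ N : W → W → Set (Rep J), (∀ x α, (N x α).Countable) → ∀ b, ∃ j, b ≤ j ∧ g j = N

end Pool.Agent.Helper919.HM
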