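import Pool.Agent.Helper919_HM.Stmts

set_option autoImplicit false
set_option linter.unusedSectionVars false
set_option linter.unusedVariables false

/-! # The inductive step of the main lemma -/

namespace Pool.Agent.Helper919.HM.Tmn

open Cardinal Pool.Agent.Helper919.DQ

theorem ns_union2 (hmono : St_mono) (hunion : St_union) {S T : Set W} (hS : NS S) (hT : NS T) :
    NS (S ∪ T) := by
  refine hmono _ _ (hunion (fun n => if n = 0 then S else T) fun n => ?_) fun x hx => ?_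
  · by_cases hn : n = 0
    · simp only [hn, if_true]; exact hS
    · simp only [if_neg hn]; exact hT
  · rw [Set.mem_iUnion]
    rcases hx with hx | hx
    · exact ⟨0, by simpa using hx⟩
    · exact ⟨1, by simpa using hx⟩

theorem ns_biUnion (hmono : St_mono) (hunion : St_union) (hctb : St_ctb) {X : Type} {C : Set X}
    (hC : C.Countable) {T : X → Set W} (hT : ∀ x ∈ C, NS (T x)) : NS (⋃ x ∈ C, T x) := by
  rcases Set.eq_empty_or_nonempty C with rfl | hne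
  · simp only [Set.mem_empty_iff_false, Set.iUnion_false, Set.iUnion_empty]
    exact hctb _ Set.countable_empty
  · obtain ⟨e, he⟩ := hC.exists_eq_range hne
    refine hmono _ _ (hunion (fun n => T (e n)) fun n => hT _ ?_) ?_
    · rw [he]; exact ⟨n, rfl⟩
    · intro y hy
      simp only [Set.mem_iUnion] at hy ⊢
      obtain ⟨x, hx, hy⟩ := hy
      rw [he] at hx
      obtain ⟨n, rfl⟩ := hx
      exact ⟨n, hy⟩

theorem countable_Iic (δ : W) : (Set.Iic δ).Countable := by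
  have h : #(Set.Iio δ) < #W := Cardinal.mk_Iio_lt δ (by simp [W])
  have h1 : (Set.Iio δ).Countable := by
    rw [← Cardinal.le_aleph0_iff_set_countable]
    have h1 : #W = Order.succ ℵ₀ := by
      rw [mk_toType, card_ord]; exact succ_aleph0.symm
    exact Order.lt_succ_iff.1 (h.trans_eq h1)
  have h2 : Set.Iic δ = insert δ (Set.Iio δ) := by
    ext x
    simp only [Set.mem_Iic, Set.mem_insert_iff, Set.mem_Iio]
    exact le_iff_eq_or_lt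
  rw [h2]
  exact h1.insert δ

theorem exists_ub (E : Finset W) : ∃ b : W, ∀ x ∈ E, x ≤ b := by
  classical
  rcases E.eq_empty_or_nonempty with rfl | h
  · have : Nonempty W := by
      rw [← mk_ne_zero_iff, mk_toType, card_ord]
      exact (aleph_pos 1).ne'
    obtain ⟨b⟩ := this
    exact ⟨b, by simp⟩
  · exact ⟨E.max' h, fun x hx => E.le_max' x hx⟩

section

variable {J : Type} {g : J → W → W → Set (Rep J)} {π : Par} [LinearOrder J] [WellFoundedLT J]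

/-- steps 1 to 3 -/
structure DatA (Γ : Set W) (S : W → Set W) (f : W → W → Rep J) (Γ1 : Set W) (S2 : W → Set W)
    (R : W → Finset J) (Rs : Finset J) : Prop where
  sub : Γ1 ⊆ Γ
  unc : ¬ Γ1.Countable
  ssub : ∀ γ ∈ Γ, S2 γ ⊆ S γ
  sns : ∀ γ ∈ Γ, ¬ NS (S2 γ)
  rsub : ∀ γ ∈ Γ, ∀ ξ ∈ S2 γ, ∀ x ∈ R γ, x ∈ st (f γ ξ)
  A : ∀ γ ∈ Γ, ∀ ξ ∈ S2 γ, ∀ γ' ∈ Γ, γ' < ξ → ∀ x ∈ R γ', x ∈ st (f γ ξ) → x ∈ R γ
  B : ∀ γ ∈ Γ, ∀ ξ ∈ S2 γ, ∀ ξ' < ξ, ∀ γ' < ξ, ∀ x, x ∈ st (f γ' ξ') → x ∈ st (f γ ξ) → x ∈ R γ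
  C : ∀ γ ∈ Γ, ∀ ξ ∈ S2 γ, ∀ ξ' < ξ, ∀ γ' < ξ, ∀ x ∈ vs (f γ' ξ'), x < ξ
  rs : ∀ γ ∈ Γ1, Rs ⊆ R γ
  rc : ∀ x ∉ Rs, {γ ∈ Γ1 | x ∈ R γ}.Countable

theorem exists_A (hmono : St_mono) (hunion : St_union) (hdiag : St_diag) (hctb : St_ctb)
    (hroot : St_root) (hcroot : St_croot) {Γ : Set W} (hΓ : ¬ Γ.Countable) {S : W → Set W}
    (f : W → W → Rep J) (hS : ∀ γ ∈ Γ, ¬ NS (S γ)) :
    ∃ Γ1 S2 R Rs, DatA Γ S f Γ1 S2 R Rs := by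
  classical
  have h1 : ∀ γ, ∃ (R : Finset J) (S1 : Set W), γ ∈ Γ → S1 ⊆ S γ ∧ ¬ NS S1 ∧
      (∀ ξ ∈ S1, R ⊆ (st_finite (f γ ξ)).toFinset) ∧
      ∀ x ∉ R, NS {ξ ∈ S1 | x ∈ (st_finite (f γ ξ)).toFinset} := by
    intro γ
    by_cases hγ : γ ∈ Γ
    · obtain ⟨R, S1, h1, h2, h3, h4⟩ := hroot J (fun ξ => (st_finite (f γ ξ)).toFinset) (S γ)
        (hS γ hγ)
      exact ⟨R, S1, fun _ => ⟨h1, h2, h3, h4⟩⟩
    · exact ⟨∅, ∅, fun h => absurd h hγ⟩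
  choose R S1 hR using h1
  let Cδ : W → Set J := fun δ => (⋃ γ' ∈ Set.Iic δ, (R γ' : Set J)) ∪
    ⋃ ξ' ∈ Set.Iic δ, ⋃ γ' ∈ Set.Iic δ, st (f γ' ξ')
  have hCδ : ∀ δ, (Cδ δ).Countable := by
    intro δ
    refine Set.Countable.union ?_ ?_
    · exact (countable_Iic δ).biUnion fun γ' _ => Finset.countable_toSet _
    · exact (countable_Iic δ).biUnion fun ξ' _ => (countable_Iic δ).biUnion fun γ' _ =>
        (st_finite _).countable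
  let Dδ : W → Set W := fun δ => ⋃ ξ' ∈ Set.Iic δ, ⋃ γ' ∈ Set.Iic δ, vs (f γ' ξ')
  have hDδ : ∀ δ, (Dδ δ).Countable := fun δ =>
    (countable_Iic δ).biUnion fun ξ' _ => (countable_Iic δ).biUnion fun γ' _ =>
      (vs_finite _).countable
  let N : W → W → Set W := fun γ δ => (⋃ x ∈ Cδ δ, {ξ | ξ ∈ S1 γ ∧ x ∉ R γ ∧ x ∈ st (f γ ξ)}) ∪
    ⋃ x ∈ Dδ δ, Set.Iic x
  have hN : ∀ γ ∈ Γ, ∀ δ, NS (N γ δ) := by
    intro γ hγ δ
    refine ns_union2 hmono hunion (ns_biUnion hmono hunion hctb (hCδ δ) fun x _ => ?_) ?_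
    · by_cases hx : x ∈ R γ
      · refine hmono _ _ (hctb ∅ Set.countable_empty) ?_
        rintro ξ ⟨_, h, _⟩
        exact absurd hx h
      · refine hmono _ _ ((hR γ hγ).2.2.2 x hx) ?_
        rintro ξ ⟨h1, _, h3⟩
        exact ⟨h1, by simpa using h3⟩
    · exact hctb _ ((hDδ δ).biUnion fun x _ => countable_Iic x)
  let S2 : W → Set W := fun γ => {ξ | ξ ∈ S1 γ ∧ ∀ δ < ξ, ξ ∉ N γ δ}
  have hS2 : ∀ γ ∈ Γ, ¬ NS (S2 γ) := by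
    intro γ hγ hns
    refine (hR γ hγ).2.1 (hmono _ _ (ns_union2 hmono hunion hns (hdiag (N γ) (hN γ hγ))) ?_)
    intro ξ hξ
    by_cases h : ∀ δ < ξ, ξ ∉ N γ δ
    · exact Or.inl ⟨hξ, h⟩
    · push Not at h
      obtain ⟨δ, h1, h2⟩ := h
      exact Or.inr ⟨δ, h1, h2⟩
  obtain ⟨Rs, Γ1, hΓ1, hΓ1c, hRs, hRc⟩ := hcroot J R Γ hΓ
  refine ⟨Γ1, S2, R, Rs, hΓ1, hΓ1c, fun γ hγ ξ hξ => (hR γ hγ).1 hξ.1, hS2,
    fun γ hγ ξ hξ x hx => ?_, fun γ hγ ξ hξ γ' hγ' hlt x hx hxs => ?_,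
    fun γ hγ ξ hξ ξ' hlt γ' hlt' x hx hxs => ?_, fun γ hγ ξ hξ ξ' hlt γ' hlt' x hx => ?_, hRs, hRc⟩
  · have := (hR γ hγ).2.2.1 ξ hξ.1 hx
    simpa using this
  · by_contra hcon
    refine hξ.2 γ' hlt (Or.inl ?_)
    simp only [Set.mem_iUnion]
    refine ⟨x, Or.inl ?_, hξ.1, hcon, hxs⟩
    simp only [Set.mem_iUnion]
    exact ⟨γ', Set.mem_Iic.2 le_rfl, hx⟩
  · by_contra hcon
    refine hξ.2 (max ξ' γ') (max_lt hlt hlt') (Or.inl ?_)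
    simp only [Set.mem_iUnion]
    refine ⟨x, Or.inr ?_, hξ.1, hcon, hxs⟩
    simp only [Set.mem_iUnion]
    exact ⟨ξ', Set.mem_Iic.2 (le_max_left _ _), γ', Set.mem_Iic.2 (le_max_right _ _), hx⟩
  · by_contra hcon
    refine hξ.2 (max ξ' γ') (max_lt hlt hlt') (Or.inr ?_)
    simp only [Set.mem_iUnion]
    refine ⟨x, ?_, not_lt.1 hcon⟩
    simp only [Dδ, Set.mem_iUnion]
    exact ⟨ξ', Set.mem_Iic.2 (le_max_left _ _), γ', Set.mem_Iic.2 (le_max_right _ _), hx⟩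

/-- the atoms whose vertex is in `E` and whose stage is in `R` -/
def Rt (E : Finset W) (R : Finset J) (a : Atom J) : Prop :=
  match a with
  | .h v _ _ => v ∈ E
  | .c i α _ => i ∈ R ∧ α ∈ E

open Classical in
noncomputable def ta (E : Finset W) (R : Finset J) (p : Rep J) : Rep J :=
  p.filter fun a => Rt E R a

open Classical in
theorem mem_ta {E : Finset W} {R : Finset J} {p : Rep J} {a : Atom J} :
    a ∈ ta E R p ↔ a ∈ p ∧ Rt E R a :=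
  Finset.mem_filter (p := fun a : Atom J => Rt E R a)

/-- the possible root atoms -/
def CA (π : Par) (E : Finset W) (R : Finset J) : Set (Atom J) :=
  (⋃ v ∈ E, ⋃ x ∈ Set.Iic v, Set.range fun k : ℕ => Atom.h v k x) ∪
    ⋃ i ∈ R, ⋃ α ∈ E, ⋃ κ ∈ Set.Iic (max α π.w0), {Atom.c i α κ}

theorem countable_CA (E : Finset W) (R : Finset J) : (CA π E R).Countable := by
  refine Set.Countable.union ?_ ?_
  · exact (Finset.countable_toSet E).biUnion fun v _ => (countable_Iic v).biUnion fun x _ =>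
      Set.countable_range _
  · exact (Finset.countable_toSet R).biUnion fun i _ => (Finset.countable_toSet E).biUnion
      fun α _ => (countable_Iic _).biUnion fun κ _ => Set.countable_singleton _

theorem mem_CA {j : J} {p : Rep J} (hp : p ∈ Vd g π j) {E : Finset W} {R : Finset J} {a : Atom J}
    (ha : a ∈ p) (hr : Rt E R a) : a ∈ CA π E R := by
  obtain ⟨h1, h2, h3⟩ := (mem_Vd g π).1 hp
  cases a with
  | h v k x =>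
    left
    simp only [Set.mem_iUnion]
    exact ⟨v, hr, x, (h1.2.2.2 v k x ha).1.le, k, rfl⟩
  | c i α κ =>
    right
    simp only [Set.mem_iUnion]
    refine ⟨i, hr.1, α, hr.2, κ, ?_, rfl⟩
    have h4 := (h3 i (h2 _ ha)).1.2 α κ ha
    by_cases hα : Order.IsSuccLimit α
    · exact (h4.1 hα).2.le.trans (le_max_left _ _)
    · exact (h4.2 hα).le.trans (le_max_right _ _)

/-- steps 4 and 5 -/
structure DatB (j : J) (Γ1 : Set W) (S2 : W → Set W) (f : W → W → Rep J) (R : W → Finset J)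
    (Rs : Finset J) (B : W → W → Finset W) (Γ4 : Set W) (S4 : W → Set W) (E : W → Finset W)
    (Es : Finset W) (b z : W → W) (Ts : Rep J) : Prop where
  sub : Γ4 ⊆ Γ1
  unc : ¬ Γ4.Countable
  ssub : ∀ γ ∈ Γ4, S4 γ ⊆ S2 γ
  sns : ∀ γ ∈ Γ4, ¬ NS (S4 γ)
  e1 : ∀ γ ∈ Γ4, ∀ ξ ∈ S4 γ, ∀ x, x ∈ E γ ↔ (x ∈ vs (f γ ξ) ∧ x < ξ) ∨ x ∈ B γ ξ
  es : ∀ γ ∈ Γ4, Es ⊆ E γ
  bb : ∀ γ ∈ Γ4, ∀ x ∈ E γ, x ≤ b γ
  z1 : ∀ γ ∈ Γ4, z γ < γ
  z2 : ∀ γ ∈ Γ4, ∀ x ∈ E γ, x ∉ Es → z γ < x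
  z3 : ∀ γ ∈ Γ4, ∀ x ∈ Es, x < γ
  bz : ∀ γ ∈ Γ4, ∀ γ' ∈ Γ4, γ < γ' → b γ < z γ'
  q : ∀ γ ∈ Γ4, ∀ γ' ∈ Γ4, γ < γ' → ∀ x ∈ R γ, x ∈ R γ' → x ∈ Rs
  t : ∀ γ ∈ Γ4, ∀ ξ ∈ S4 γ, ∀ a, Rt Es Rs a → (a ∈ f γ ξ ↔ a ∈ Ts)

theorem exists_B (hfib : St_fiber) (hfod : St_fodor) (hcroot : St_croot) (hspace : St_space)
    {j : J} {Γ1 : Set W} (hΓ1 : ¬ Γ1.Countable) {S2 : W → Set W} (f : W → W → Rep J)
    (hS2 : ∀ γ ∈ Γ1, ¬ NS (S2 γ)) (hf : ∀ γ ∈ Γ1, ∀ ξ ∈ S2 γ, f γ ξ ∈ Vd g π j)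
    (R : W → Finset J) (Rs : Finset J) (hRs : ∀ γ ∈ Γ1, Rs ⊆ R γ)
    (hRc : ∀ x ∉ Rs, {γ ∈ Γ1 | x ∈ R γ}.Countable) (B : W → W → Finset W)
    (hB : ∀ γ ∈ Γ1, ∀ ξ ∈ S2 γ, ∀ x ∈ B γ ξ, x < ξ) :
    ∃ Γ4 S4 E Es b z Ts, DatB j Γ1 S2 f R Rs B Γ4 S4 E Es b z Ts := by
  classical
  let V : W → W → Finset W := fun γ ξ => ((vs_finite (f γ ξ)).toFinset.filter fun x => x < ξ) ∪ B γ ξ
  have hV : ∀ γ ξ x, x ∈ V γ ξ ↔ (x ∈ vs (f γ ξ) ∧ x < ξ) ∨ x ∈ B γ ξ := by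
    intro γ ξ x
    simp only [V, Finset.mem_union, Finset.mem_filter, Set.Finite.mem_toFinset]
  have h1 : ∀ γ, ∃ (E : Finset W) (T : Rep J), γ ∈ Γ1 →
      ¬ NS {ξ | (ξ ∈ S2 γ ∧ V γ ξ = E) ∧ ta E (R γ) (f γ ξ) = T} := by
    intro γ
    by_cases hγ : γ ∈ Γ1
    · obtain ⟨E, hE⟩ := hfod (S2 γ) (V γ) (hS2 γ hγ) (by
        intro ξ hξ x hx
        rcases (hV γ ξ x).1 hx with h | h
        · exact h.2
        · exact hB γ hγ ξ hξ x h)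
      obtain ⟨T, _, hT⟩ := hfib {ξ | ξ ∈ S2 γ ∧ V γ ξ = E} (Rep J)
        {F : Rep J | (F : Set (Atom J)) ⊆ CA π E (R γ)} (fun ξ => ta E (R γ) (f γ ξ)) hE
        (countable_finsets (countable_CA E (R γ))) (by
          intro ξ hξ a ha
          obtain ⟨h1, h2⟩ := mem_ta.1 (Finset.mem_coe.1 ha)
          exact mem_CA (hf γ hγ ξ hξ.1) h1 h2)
      exact ⟨E, T, fun _ => hT⟩
    · exact ⟨∅, ∅, fun h => absurd h hγ⟩
  choose E T hE using h1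
  let S4 : W → Set W := fun γ => {ξ | (ξ ∈ S2 γ ∧ V γ ξ = E γ) ∧ ta (E γ) (R γ) (f γ ξ) = T γ}
  have hne : ∀ γ ∈ Γ1, (S4 γ).Nonempty := by
    intro γ hγ
    by_contra hcon
    rw [Set.not_nonempty_iff_eq_empty] at hcon
    exact hE γ hγ ⟨fun x => x, by
      intro ξ hξ
      have : ξ ∈ S4 γ := hξ
      rw [hcon] at this
      exact absurd this (Set.notMem_empty _)⟩
  obtain ⟨Es, Γ2, hΓ2, hΓ2c, hEs, hEc⟩ := hcroot W E Γ1 hΓ1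
  obtain ⟨Ts, _, hTs⟩ := Pool.Agent.Helper919.DQ.exists_fiber hΓ2c (fun γ => ta Es Rs (T γ))
    (C := {F : Rep J | (F : Set (Atom J)) ⊆ CA π Es Rs})
    (countable_finsets (countable_CA Es Rs)) (by
      intro γ hγ a ha
      obtain ⟨h1, h2⟩ := mem_ta.1 (Finset.mem_coe.1 ha)
      obtain ⟨ξ, hξ⟩ := hne γ (hΓ2 hγ)
      rw [← hξ.2] at h1
      exact mem_CA (hf γ (hΓ2 hγ) ξ hξ.1.1) (mem_ta.1 h1).1 h2)
  choose b hb using fun γ => exists_ub (E γ)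
  obtain ⟨Γ4, z, hΓ4, hΓ4c, hz, hz'⟩ := hspace {γ ∈ Γ2 | ta Es Rs (T γ) = Ts} E Es b
    (fun γ γ' => ∀ x ∈ R γ, x ∈ R γ' → x ∈ Rs) hTs
    (fun x hx => (hEc x hx).mono (by rintro γ ⟨h1, h2⟩; exact ⟨h1.1, h2⟩))
    (by
      intro γ _
      have : (⋃ x ∈ {x | x ∈ R γ ∧ x ∉ Rs}, {γ' ∈ Γ1 | x ∈ R γ'}).Countable := by
        refine Set.Countable.biUnion ?_ fun x hx => hRc x hx.2
        exact (Finset.countable_toSet (R γ)).mono fun x hx => hx.1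
      refine this.mono ?_
      rintro γ' ⟨h1, h2⟩
      push Not at h2
      obtain ⟨x, h3, h4, h5⟩ := h2
      simp only [Set.mem_iUnion]
      exact ⟨x, ⟨h3, h5⟩, hΓ2 h1.1, h4⟩)
  refine ⟨Γ4, S4, E, Es, b, z, Ts, fun γ hγ => hΓ2 (hΓ4 hγ).1, hΓ4c, fun γ hγ ξ hξ => hξ.1.1,
    fun γ hγ => hE γ (hΓ2 (hΓ4 hγ).1), fun γ hγ ξ hξ x => ?_, fun γ hγ => hEs γ ((hΓ4 hγ).1),
    fun γ hγ x hx => hb γ x hx, fun γ hγ => (hz γ hγ).1, fun γ hγ x hx hxs => (hz γ hγ).2.1 x hx hxs,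
    fun γ hγ x hx => (hz γ hγ).2.2 x hx, fun γ hγ γ' hγ' hlt => (hz' γ hγ γ' hγ' hlt).1,
    fun γ hγ γ' hγ' hlt => (hz' γ hγ γ' hγ' hlt).2, fun γ hγ ξ hξ a ha => ?_⟩
  · rw [← hξ.1.2]; exact hV γ ξ x
  · have hsub : Rt (E γ) (R γ) a := by
      cases a with
      | h v k x => exact hEs γ (hΓ4 hγ).1 ha
      | c i α κ => exact ⟨hRs γ (hΓ2 (hΓ4 hγ).1) ha.1, hEs γ (hΓ4 hγ).1 ha.2⟩
    have h2 : ta Es Rs (T γ) = Ts := (hΓ4 hγ).2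
    constructor
    · intro h
      rw [← h2, mem_ta, ← hξ.2, mem_ta]
      exact ⟨⟨h, hsub⟩, ha⟩
    · intro h
      rw [← h2, mem_ta, ← hξ.2, mem_ta] at h
      exact h.1.1

theorem st_lt {j : J} {p : Rep J} (hp : p ∈ Vd g π j) {i : J} (hi : i ∈ st p) : i < j := by
  obtain ⟨α, κ, h⟩ := hi
  exact ((mem_Vd g π).1 hp).2.1 _ h

theorem unbounded_of_not_NS (hctb : St_ctb) (hmono : St_mono) {S : Set W} (hS : ¬ NS S) (ζ : W) :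
    ∃ ξ ∈ S, ζ < ξ := by
  by_contra hcon
  push Not at hcon
  exact hS (hmono _ _ (hctb _ (countable_Iic ζ)) fun ξ hξ => hcon ξ hξ)

theorem job_mn (hmono : St_mono) (hunion : St_union) (hdiag : St_diag) (hctb : St_ctb)
    (hfib : St_fiber) (hfod : St_fodor) (hroot : St_root) (hcroot : St_croot) (hspace : St_space)
    (hgood : St_good g π) (hdec : St_dec g π) (hp0 : St_pair0 g π) (hp1 : St_pair1 g π) :
    St_mn g π := by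
  classical
  intro hcc j IH Γ hΓ S f hS hf
  obtain ⟨Γ1, S2, R, Rs, hA⟩ := exists_A hmono hunion hdiag hctb hroot hcroot hΓ f hS
  have hfV : ∀ γ ∈ Γ, ∀ ξ ∈ S2 γ, f γ ξ ∈ Vd g π j := fun γ hγ ξ hξ =>
    (hf γ hγ ξ (hA.ssub γ hγ hξ)).2.2
  have hlim : ∀ γ ∈ Γ, ∀ ξ ∈ S2 γ, Order.IsSuccLimit ξ := fun γ hγ ξ hξ =>
    (hf γ hγ ξ (hA.ssub γ hγ hξ)).1
  have hrho : ∀ γ ∈ Γ, ∀ ξ ∈ S2 γ, γ ≤ π.ρ ξ := fun γ hγ ξ hξ =>
    (hf γ hγ ξ (hA.ssub γ hγ hξ)).2.1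
  by_cases hne : Rs = ∅
  · -- no common stages
    obtain ⟨Γ4, S4, E, Es, b, z, Ts, hB⟩ := exists_B (g := g) (π := π) hfib hfod hcroot hspace
      (j := j) hA.unc (S2 := S2) f (fun γ hγ => hA.sns γ (hA.sub hγ))
      (fun γ hγ ξ hξ => hfV γ (hA.sub hγ) ξ hξ) R Rs hA.rs hA.rc (fun _ _ => ∅) (by simp)
    have hnt : ∃ γ ∈ Γ4, ∃ γ' ∈ Γ4, γ < γ' := by
      by_contra hcon
      push Not at hcon
      apply hB.unc
      have : Γ4.Subsingleton := fun x hx y hy =>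
        le_antisymm (hcon y hy x hx) (hcon x hx y hy)
      exact this.countable
    obtain ⟨γ, hγ, γ', hγ', hlt⟩ := hnt
    have hγ0 := hA.sub (hB.sub hγ)
    have hγ0' := hA.sub (hB.sub hγ')
    refine ⟨γ, hγ0, γ', hγ0', hlt, fun ζ => ?_⟩
    obtain ⟨ξ, hξ, hζξ⟩ := unbounded_of_not_NS hctb hmono (hB.sns γ hγ) (max ζ (max γ' (b γ')))
    obtain ⟨η, hη, hξη⟩ := unbounded_of_not_NS hctb hmono (hB.sns γ' hγ') ξ
    have hξ2 := hB.ssub γ hγ hξ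
    have hη2 := hB.ssub γ' hγ' hη
    have hζ : ζ < ξ := lt_of_le_of_lt (le_max_left _ _) hζξ
    have hγ'ξ : γ' < ξ := lt_of_le_of_lt ((le_max_left _ _).trans (le_max_right _ _)) hζξ
    have hbξ : b γ' < ξ := lt_of_le_of_lt ((le_max_right _ _).trans (le_max_right _ _)) hζξ
    have hcom : ∀ v ∈ E γ, v ∈ E γ' → v ∈ Es := by
      intro v hv hv'
      by_contra hcon
      exact absurd ((hB.bb γ hγ v hv).trans_lt ((hB.bz γ hγ γ' hγ' hlt).trans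
        (hB.z2 γ' hγ' v hv' hcon))) (lt_irrefl _)
    have hE1 := hB.e1 γ hγ ξ hξ
    have hE2 := hB.e1 γ' hγ' η hη
    obtain ⟨u, hu, h1, h2, k, h3⟩ := hp0 j (f γ ξ) (f γ' η) (E γ) (E γ') ξ η
      (hfV γ hγ0 ξ hξ2) (hfV γ' hγ0' η hη2)
      (by
        rw [Set.disjoint_left]
        intro x hx hx'
        have h4 : x ∈ R γ' := hA.B γ' hγ0' η hη2 ξ hξη γ (hlt.trans (hγ'ξ.trans hξη)) x hx hx'
        have h5 : x ∈ R γ := hA.A γ hγ0 ξ hξ2 γ' hγ0' hγ'ξ x h4 hx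
        have h6 := hB.q γ hγ γ' hγ' hlt x h5 h4
        rw [hne] at h6
        exact absurd h6 (Finset.notMem_empty _))
      hξη (hlim γ' hγ0' η hη2)
      (by
        intro v k x hx
        have h4 : v ∈ vs (f γ ξ) := Or.inl ⟨k, x, hx⟩
        exact ⟨hA.C γ' hγ0' η hη2 ξ hξη γ (hlt.trans (hγ'ξ.trans hξη)) v h4,
          fun h5 => (hE1 v).2 (Or.inl ⟨h4, h5⟩)⟩)
      (by
        intro v k x hx hv
        exact (hE2 v).2 (Or.inl ⟨Or.inl ⟨k, x, hx⟩, hv⟩))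
      (fun v hv => (hB.bb γ' hγ' v hv).trans_lt hbξ)
      (by
        intro v hv hv' k x
        have h4 := hcom v hv hv'
        rw [hB.t γ hγ ξ hξ (Atom.h v k x) h4, hB.t γ' hγ' η hη (Atom.h v k x) h4])
      (by
        intro k x hx
        have h4 := (((mem_Vd g π).1 (hfV γ' hγ0' η hη2)).1.2.2.2 η k x hx).1
        have h5 : x ∈ E γ' := (hE2 x).2 (Or.inl ⟨Or.inr (Or.inl ⟨η, k, hx⟩), h4⟩)
        exact (hB.bb γ' hγ' x h5).trans_lt hbξ)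
    exact ⟨ξ, hA.ssub γ hγ0 hξ2, η, hA.ssub γ' hγ0' hη2, hζ, hξη, u, hu, h1, h2, k, h3⟩
  · -- the last common stage
    have hne' : Rs.Nonempty := Finset.nonempty_iff_ne_empty.2 hne
    set i := Rs.max' hne' with hi_def
    have hiR : i ∈ Rs := Rs.max'_mem hne'
    have hex : ∃ γ ∈ Γ1, ∃ ξ ∈ S2 γ, i ∈ st (f γ ξ) := by
      have h1 : Γ1.Nonempty := by
        by_contra hcon
        rw [Set.not_nonempty_iff_eq_empty] at hcon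
        exact hA.unc (by rw [hcon]; exact Set.countable_empty)
      obtain ⟨γ, hγ⟩ := h1
      obtain ⟨w⟩ : Nonempty W := ⟨γ⟩
      obtain ⟨ξ, hξ, _⟩ := unbounded_of_not_NS hctb hmono (hA.sns γ (hA.sub hγ)) w
      exact ⟨γ, hγ, ξ, hξ, hA.rsub γ (hA.sub hγ) ξ hξ i (hA.rs γ hγ hiR)⟩
    obtain ⟨γx, hγx, ξx, hξx, hix⟩ := hex
    have hij : i < j := st_lt (hfV γx (hA.sub hγx) ξx hξx) hix
    have hOK : OKn (g i) (Vd g π i) := by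
      obtain ⟨α, κ, h⟩ := hix
      exact (((mem_Vd g π).1 (hfV γx (hA.sub hγx) ξx hξx)).2.2 i hij).2.1 α κ h
    have hdecr : ∀ γ ξ, ∃ (r : Rep J) (B : Finset W), γ ∈ Γ1 → ξ ∈ S2 γ → r ∈ Vd g π i ∧
        res (f γ ξ) i ⊆ r ∧ (∀ x ∈ B, x < ξ) ∧ ∀ α ∈ vs (f γ ξ), ξ < α → ∀ x < ξ, x ∉ B →
          NE (g i) (Vd g π i) i r x α := by
      intro γ ξ
      by_cases h : γ ∈ Γ1 ∧ ξ ∈ S2 γ
      · obtain ⟨r, hr, h1, B, h2, h3⟩ := hdec i hOK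
          ((vs_finite (f γ ξ)).toFinset.filter fun x => ξ < x) ξ
          (fun α hα => (Finset.mem_filter.1 hα).2) (res (f γ ξ) i)
          (res_mem' (hfV γ (hA.sub h.1) ξ h.2) hij.le)
        refine ⟨r, B, fun _ _ => ⟨hr, h1, h2, fun α hα hξα x hx hxB => h3 α ?_ x hx hxB⟩⟩
        simp only [Finset.mem_filter, Set.Finite.mem_toFinset]
        exact ⟨hα, hξα⟩
      · exact ⟨∅, ∅, fun h1 h2 => absurd ⟨h1, h2⟩ h⟩
    choose r B hr using hdecr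
    obtain ⟨Γ4, S4, E, Es, b, z, Ts, hB⟩ := exists_B (g := g) (π := π) hfib hfod hcroot hspace
      (j := j) hA.unc (S2 := S2) f (fun γ hγ => hA.sns γ (hA.sub hγ))
      (fun γ hγ ξ hξ => hfV γ (hA.sub hγ) ξ hξ) R Rs hA.rs hA.rc B
      (fun γ hγ ξ hξ x hx => (hr γ ξ hγ hξ).2.2.1 x hx)
    -- good conditions
    have hgd : ∀ γ, ∃ r0 : Rep J, γ ∈ Γ4 → r0 ∈ Vd g π i ∧ ∀ r' ∈ Vd g π i, r0 ⊆ r' →
        ¬ NS {ξ ∈ S4 γ | ∃ u ∈ Vd g π i, r' ⊆ u ∧ r γ ξ ⊆ u} := by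
      intro γ
      by_cases hγ : γ ∈ Γ4
      · obtain ⟨r0, h1, h2⟩ := hgood i (hcc i) (S4 γ) (r γ) (hB.sns γ hγ)
          (fun ξ hξ => (hr γ ξ (hB.sub hγ) (hB.ssub γ hγ hξ)).1)
        exact ⟨r0, fun _ => ⟨h1, h2⟩⟩
      · exact ⟨∅, fun h => absurd h hγ⟩
    choose r0 hr0 using hgd
    have hr1ex : ∀ γ, ∃ (r1 : Rep J) (B1 : Finset W), γ ∈ Γ4 → r1 ∈ Vd g π i ∧ r0 γ ⊆ r1 ∧
        ∀ α ∈ E γ, α ∉ Es → ∀ x < z γ, x ∉ B1 → NE (g i) (Vd g π i) i r1 x α := by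
      intro γ
      by_cases hγ : γ ∈ Γ4
      · obtain ⟨r1, h1, h2, B1, h3, h4⟩ := hdec i hOK ((E γ).filter fun x => x ∉ Es) (z γ)
          (fun α hα => hB.z2 γ hγ α (Finset.mem_filter.1 hα).1 (Finset.mem_filter.1 hα).2)
          (r0 γ) (hr0 γ hγ).1
        exact ⟨r1, B1, fun _ => ⟨h1, h2, fun α hα hαs x hx hxB =>
          h4 α (Finset.mem_filter.2 ⟨hα, hαs⟩) x hx hxB⟩⟩
      · exact ⟨∅, ∅, fun h => absurd h hγ⟩
    choose r1 B1 hr1 using hr1ex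
    obtain ⟨Bs, Γ5, hΓ5, hΓ5c, hBs, hBc⟩ := hcroot W B1 Γ4 hB.unc
    have hEcount : ∀ x ∉ Es, {γ ∈ Γ4 | x ∈ E γ}.Countable := by
      intro x hx
      have : ({γ ∈ Γ4 | x ∈ E γ} : Set W).Subsingleton := by
        have key : ∀ γ ∈ Γ4, ∀ γ' ∈ Γ4, x ∈ E γ → x ∈ E γ' → ¬ γ < γ' := by
          intro γ hγ γ' hγ' h1 h2 hlt
          exact absurd ((hB.bb γ hγ x h1).trans_lt ((hB.bz γ hγ γ' hγ' hlt).trans
            (hB.z2 γ' hγ' x h2 hx))) (lt_irrefl _)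
        intro γ hγ γ' hγ'
        exact le_antisymm (not_lt.1 (key γ' hγ'.1 γ hγ.1 hγ'.2 hγ.2))
          (not_lt.1 (key γ hγ.1 γ' hγ'.1 hγ.2 hγ'.2))
      exact this.countable
    have hbad : {γ ∈ Γ5 | ∃ x ∈ Bs, x ∈ E γ ∧ x ∉ Es}.Countable := by
      have : (⋃ x ∈ {x | x ∈ Bs ∧ x ∉ Es}, {γ ∈ Γ4 | x ∈ E γ}).Countable := by
        refine Set.Countable.biUnion ?_ fun x hx => hEcount x hx.2
        exact (Finset.countable_toSet Bs).mono fun x hx => hx.1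
      refine this.mono ?_
      rintro γ ⟨h1, x, h2, h3, h4⟩
      simp only [Set.mem_iUnion]
      exact ⟨x, ⟨h2, h4⟩, hΓ5 h1, h3⟩
    have hΓ5' : ¬ {γ ∈ Γ5 | ¬ ∃ x ∈ Bs, x ∈ E γ ∧ x ∉ Es}.Countable := by
      intro hc
      apply hΓ5c
      refine (hbad.union hc).mono fun γ hγ => ?_
      by_cases h : ∃ x ∈ Bs, x ∈ E γ ∧ x ∉ Es
      · exact Or.inl ⟨hγ, h⟩
      · exact Or.inr ⟨hγ, h⟩
    obtain ⟨Γ6, z6, hΓ6, hΓ6c, _, hQ6⟩ := hspace {γ ∈ Γ5 | ¬ ∃ x ∈ Bs, x ∈ E γ ∧ x ∉ Es}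
      (fun _ => ∅) ∅ (fun x => x) (fun γ γ' => ∀ x ∈ E γ, x ∉ Es → x ∉ B1 γ') hΓ5' (by simp)
      (by
        rintro γ ⟨hγ1, hγ2⟩
        have : (⋃ x ∈ {x | x ∈ E γ ∧ x ∉ Bs}, {γ' ∈ Γ5 | x ∈ B1 γ'}).Countable := by
          refine Set.Countable.biUnion ?_ fun x hx => hBc x hx.2
          exact (Finset.countable_toSet (E γ)).mono fun x hx => hx.1
        refine this.mono ?_
        rintro γ' ⟨h1, h2⟩
        push Not at h2 hγ2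
        obtain ⟨x, h3, h4, h5⟩ := h2
        simp only [Set.mem_iUnion]
        refine ⟨x, ⟨h3, fun h6 => ?_⟩, h1.1, h5⟩
        exact h4 (hγ2 x h6 h3))
    have hΓ64 : Γ6 ⊆ Γ4 := fun γ hγ => hΓ5 (hΓ6 hγ).1
    -- the induction hypothesis
    have hfex : ∀ γ ξ, ∃ u : Rep J, γ ∈ Γ6 →
        ξ ∈ {ξ ∈ S4 γ | ∃ u ∈ Vd g π i, r1 γ ⊆ u ∧ r γ ξ ⊆ u} →
        u ∈ Vd g π i ∧ r1 γ ⊆ u ∧ r γ ξ ⊆ u := by
      intro γ ξ
      by_cases h : γ ∈ Γ6 ∧ ξ ∈ {ξ ∈ S4 γ | ∃ u ∈ Vd g π i, r1 γ ⊆ u ∧ r γ ξ ⊆ u}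
      · obtain ⟨_, _, u, h1, h2, h3⟩ := h
        exact ⟨u, fun _ _ => ⟨h1, h2, h3⟩⟩
      · exact ⟨∅, fun h1 h2 => absurd ⟨h1, h2⟩ h⟩
    choose f' hf' using hfex
    obtain ⟨γ, hγ, γ', hγ', hlt, hmain⟩ := IH i hij Γ6 hΓ6c
      (fun γ => {ξ ∈ S4 γ | ∃ u ∈ Vd g π i, r1 γ ⊆ u ∧ r γ ξ ⊆ u}) f'
      (fun γ hγ => (hr0 γ (hΓ64 hγ)).2 (r1 γ) (hr1 γ (hΓ64 hγ)).1 (hr1 γ (hΓ64 hγ)).2.1)
      (fun γ hγ ξ hξ => ⟨hlim γ (hA.sub (hB.sub (hΓ64 hγ))) ξ (hB.ssub γ (hΓ64 hγ) hξ.1),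
        hrho γ (hA.sub (hB.sub (hΓ64 hγ))) ξ (hB.ssub γ (hΓ64 hγ) hξ.1), (hf' γ ξ hγ hξ).1⟩)
    have hg4 := hΓ64 hγ
    have hg4' := hΓ64 hγ'
    have hγ0 := hA.sub (hB.sub hg4)
    have hγ0' := hA.sub (hB.sub hg4')
    refine ⟨γ, hγ0, γ', hγ0', hlt, fun ζ => ?_⟩
    obtain ⟨ξ, hξ, η, hη, hζξ, hξη, u, hu, hpu, hqu, k, hk⟩ := hmain (max ζ (max γ' (b γ')))
    have hξ2 := hB.ssub γ hg4 hξ.1
    have hη2 := hB.ssub γ' hg4' hη.1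
    have hζ : ζ < ξ := lt_of_le_of_lt (le_max_left _ _) hζξ
    have hγ'ξ : γ' < ξ := lt_of_le_of_lt ((le_max_left _ _).trans (le_max_right _ _)) hζξ
    have hbξ : b γ' < ξ := lt_of_le_of_lt ((le_max_right _ _).trans (le_max_right _ _)) hζξ
    have hγη : γ < η := hlt.trans (hγ'ξ.trans hξη)
    have hcom : ∀ v ∈ E γ, v ∈ E γ' → v ∈ Es := by
      intro v hv hv'
      by_contra hcon
      exact absurd ((hB.bb γ hg4 v hv).trans_lt ((hB.bz γ hg4 γ' hg4' hlt).trans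
        (hB.z2 γ' hg4' v hv' hcon))) (lt_irrefl _)
    have hE1 := hB.e1 γ hg4 ξ hξ.1
    have hE2 := hB.e1 γ' hg4' η hη.1
    have hru := (hf' γ ξ hγ hξ)
    have hru' := (hf' γ' η hγ' hη)
    have hrξ := hr γ ξ (hB.sub hg4) hξ2
    have hrη := hr γ' η (hB.sub hg4') hη2
    have hpV := hfV γ hγ0 ξ hξ2
    have hqV := hfV γ' hγ0' η hη2
    obtain ⟨w, hw, h1, h2, h3⟩ := hp1 i j (f γ ξ) (f γ' η) u (E γ) (E γ') ξ η hij hpV hqV hu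
      (fun a ha hai => hpu (hru.2.2 (hrξ.2.1 (mem_res.2 ⟨ha, hai⟩))))
      (fun a ha hai => hqu (hru'.2.2 (hrη.2.1 (mem_res.2 ⟨ha, hai⟩))))
      (by
        intro x hx hx'
        have h4 : x ∈ R γ' := hA.B γ' hγ0' η hη2 ξ hξη γ hγη x hx hx'
        have h5 : x ∈ R γ := hA.A γ hγ0 ξ hξ2 γ' hγ0' hγ'ξ x h4 hx
        exact Rs.le_max' x (hB.q γ hg4 γ' hg4' hlt x h5 h4))
      hξη
      (by
        intro α κ ha
        have h4 : α ∈ vs (f γ ξ) := Or.inr (Or.inr (Or.inl ⟨i, κ, ha⟩))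
        have h5 : κ ∈ vs (f γ ξ) := Or.inr (Or.inr (Or.inr ⟨i, α, ha⟩))
        exact ⟨hA.C γ' hγ0' η hη2 ξ hξη γ hγη α h4, hA.C γ' hγ0' η hη2 ξ hξη γ hγη κ h5,
          fun h6 => (hE1 α).2 (Or.inl ⟨h4, h6⟩), fun h6 => (hE1 κ).2 (Or.inl ⟨h5, h6⟩)⟩)
      (by
        intro α κ ha
        exact ⟨fun h6 => (hE2 α).2 (Or.inl ⟨Or.inr (Or.inr (Or.inl ⟨i, κ, ha⟩)), h6⟩),
          fun h6 => (hE2 κ).2 (Or.inl ⟨Or.inr (Or.inr (Or.inr ⟨i, α, ha⟩)), h6⟩)⟩)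
      (by
        intro v hv
        rcases (hE1 v).1 hv with h4 | h4
        · exact h4.2
        · exact hrξ.2.2.1 v h4)
      (fun v hv => (hB.bb γ' hg4' v hv).trans_lt hbξ)
      (by
        intro α κ ha hξα x hx hxE
        have h4 : α ∈ vs (f γ ξ) := Or.inr (Or.inr (Or.inl ⟨i, κ, ha⟩))
        exact (hrξ.2.2.2 α h4 hξα x hx fun h5 => hxE ((hE1 x).2 (Or.inr h5))).mono
          fun a ha _ => hpu (hru.2.2 ha))
      (by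
        intro α κ ha hηα x hx hxE
        have h4 : α ∈ vs (f γ' η) := Or.inr (Or.inr (Or.inl ⟨i, κ, ha⟩))
        exact (hrη.2.2.2 α h4 hηα x hx fun h5 => hxE ((hE2 x).2 (Or.inr h5))).mono
          fun a ha _ => hqu (hru'.2.2 ha))
      (by
        intro κ ha hκ
        have h4 := ((((mem_Vd g π).1 hqV).2.2 i hij).1.2 η κ ha).1 (hlim γ' hγ0' η hη2)
        have h5 := (hrho γ' hγ0' η hη2).trans h4.1
        exact absurd ((hB.bb γ hg4 κ hκ).trans_lt ((hB.bz γ hg4 γ' hg4' hlt).trans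
          (hB.z1 γ' hg4'))) (not_lt.2 h5))
      (by
        intro κ ha hκ
        have h4 := ((((mem_Vd g π).1 hpV).2.2 i hij).1.2 ξ κ ha).1 (hlim γ hγ0 ξ hξ2)
        have h5 := (hrho γ hγ0 ξ hξ2).trans h4.1
        have h6 : κ ∈ E γ := (hE1 κ).2 (Or.inl ⟨Or.inr (Or.inr (Or.inr ⟨i, ξ, ha⟩)), h4.2⟩)
        exact absurd (hB.z3 γ hg4 κ (hcom κ h6 hκ)) (not_lt.2 h5))
      (by
        intro α hα hα' κ
        have h4 := hcom α hα hα'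
        rw [hB.t γ hg4 ξ hξ.1 (Atom.c i α κ) ⟨hiR, h4⟩,
          hB.t γ' hg4' η hη.1 (Atom.c i α κ) ⟨hiR, h4⟩])
      (by
        intro α hα hαn α' hα' hαn' κ ha ha'
        have h4 : α ∉ Es := fun h => hαn (hB.es γ' hg4' h)
        have h5 : α' ∉ Es := fun h => hαn' (hB.es γ hg4 h)
        have h6 : α < z γ' := (hB.bb γ hg4 α hα).trans_lt (hB.bz γ hg4 γ' hg4' hlt)
        have h7 : z γ' < α' := hB.z2 γ' hg4' α' hα' h5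
        refine ⟨fun _ => ?_, fun h => absurd (h6.trans h7) (not_lt.2 h.le)⟩
        exact ((hr1 γ' hg4').2.2 α' hα' h5 α h6 ((hQ6 γ hγ γ' hγ' hlt).2 α hα h4)).mono
          fun a ha _ => hqu (hru'.2.1 ha))
    exact ⟨ξ, hA.ssub γ hγ0 hξ2, η, hA.ssub γ' hγ0' hη2, hζ, hξη, w, hw, h2, h3, k, h1 hk⟩

end

end Pool.Agent.Helper919.HM.Tmn
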